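import Pool.Agent.R552.Seg.Match

/-!
# Matchings give colourings
-/

namespace Pool.Agent.R552.Seg

/-- labels in range -/
def Good (M : ℕ) (l : CL) : Prop :=
  l.2.1 < M ∧ l.2.2.1 < M ∧ 2 * l.2.2.2 + 1 < M ∧
    ((l.1 = 0 ∧ l.2.2.2 = 0) ∨ l.1 = 1 ∨ (l.1 = 2 ∧ l.2.2.2 = 0) ∨ (l.1 = 3 ∧ l.2.2.2 = 0) ∨
      l.1 = 4 ∨ (l.1 = 5 ∧ l.2.2.2 = 0))

theorem fst_inj {M : ℕ} {l l' : CL} (h : Good M l) (h' : Good M l')
    (e : (ch M l).1 = (ch M l').1) : l = l' := by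
  obtain ⟨k, x, y, i⟩ := l
  obtain ⟨k', x', y', i'⟩ := l'
  obtain ⟨h1, h2, h3, h4⟩ := h
  obtain ⟨h1', h2', h3', h4'⟩ := h'
  simp only at h1 h2 h3 h4 h1' h2' h3' h4'
  have goal : k = k' ∧ x = x' ∧ y = y' ∧ i = i' := by
    rcases h4 with ⟨rfl, rfl⟩ | rfl | ⟨rfl, rfl⟩ | ⟨rfl, rfl⟩ | rfl | ⟨rfl, rfl⟩ <;>
    rcases h4' with ⟨rfl, rfl⟩ | rfl | ⟨rfl, rfl⟩ | ⟨rfl, rfl⟩ | rfl | ⟨rfl, rfl⟩ <;>
    simp only [ch0, ch1, ch2, ch3, ch4, ch5] at e <;>
    (rw [enc_eq (by omega) (by omega) (by omega) (by omega) (by omega) (by omega) (by omega)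
      (by omega)] at e
     omega)
  obtain ⟨rfl, rfl, rfl, rfl⟩ := goal
  rfl

theorem snd_inj {M : ℕ} {l l' : CL} (h : Good M l) (h' : Good M l')
    (e : (ch M l).2 = (ch M l').2) : l = l' := by
  obtain ⟨k, x, y, i⟩ := l
  obtain ⟨k', x', y', i'⟩ := l'
  obtain ⟨h1, h2, h3, h4⟩ := h
  obtain ⟨h1', h2', h3', h4'⟩ := h'
  simp only at h1 h2 h3 h4 h1' h2' h3' h4'
  have goal : k = k' ∧ x = x' ∧ y = y' ∧ i = i' := by
    rcases h4 with ⟨rfl, rfl⟩ | rfl | ⟨rfl, rfl⟩ | ⟨rfl, rfl⟩ | rfl | ⟨rfl, rfl⟩ <;>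
    rcases h4' with ⟨rfl, rfl⟩ | rfl | ⟨rfl, rfl⟩ | ⟨rfl, rfl⟩ | rfl | ⟨rfl, rfl⟩ <;>
    simp only [ch0, ch1, ch2, ch3, ch4, ch5] at e <;>
    (rw [enc_eq (by omega) (by omega) (by omega) (by omega) (by omega) (by omega) (by omega)
      (by omega)] at e
     omega)
  obtain ⟨rfl, rfl, rfl, rfl⟩ := goal
  rfl

theorem fst_ne_snd {M : ℕ} {l l' : CL} (h : Good M l) (h' : Good M l') :
    (ch M l).1 ≠ (ch M l').2 := by
  obtain ⟨k, x, y, i⟩ := l
  obtain ⟨k', x', y', i'⟩ := l'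
  obtain ⟨h1, h2, h3, h4⟩ := h
  obtain ⟨h1', h2', h3', h4'⟩ := h'
  simp only at h1 h2 h3 h4 h1' h2' h3' h4'
  intro e
  rcases h4 with ⟨rfl, rfl⟩ | rfl | ⟨rfl, rfl⟩ | ⟨rfl, rfl⟩ | rfl | ⟨rfl, rfl⟩ <;>
    rcases h4' with ⟨rfl, rfl⟩ | rfl | ⟨rfl, rfl⟩ | ⟨rfl, rfl⟩ | rfl | ⟨rfl, rfl⟩ <;>
    simp only [ch0, ch1, ch2, ch3, ch4, ch5] at e <;>
    (rw [enc_eq (by omega) (by omega) (by omega) (by omega) (by omega) (by omega) (by omega)
      (by omega)] at e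
     omega)

theorem enc_lt' {M a b c d e a' b' c' d' e' : ℕ} (h : a < a') (hb : b < M) (hc : c < M) (hd : d < M)
    (he : e < M) (hb' : b' < M) (hc' : c' < M) (hd' : d' < M) (he' : e' < M) :
    enc M a b c d e < enc M a' b' c' d' e' := (enc_lt hb hc hd he hb' hc' hd' he').2 (Or.inl h)

theorem chord_lt {M : ℕ} {l : CL} (h : Good M l) : (ch M l).1 < (ch M l).2 := by
  obtain ⟨k, x, y, i⟩ := l
  obtain ⟨h1, h2, h3, h4⟩ := h
  simp only at h1 h2 h3 h4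
  rcases h4 with ⟨rfl, rfl⟩ | rfl | ⟨rfl, rfl⟩ | ⟨rfl, rfl⟩ | rfl | ⟨rfl, rfl⟩ <;>
    simp only [ch0, ch1, ch2, ch3, ch4, ch5] <;>
    (rw [enc_lt (by omega) (by omega) (by omega) (by omega) (by omega) (by omega) (by omega)
      (by omega)]
     omega)

theorem enc_lt_top {M a b c d e a' : ℕ} (h : a < a') (hb : b < M) (hc : c < M) (hd : d < M)
    (he : e < M) : enc M a b c d e + 1 ≤ enc M a' 0 0 0 0 := by
  have hM : 0 < M := by omega
  have := enc_lt' (M := M) h hb hc hd he hM hM hM hM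
  omega

theorem enc_top_le {M a b c d e a' : ℕ} (h : a ≤ a') :
    enc M a 0 0 0 0 ≤ enc M a' b c d e := by
  unfold enc
  have h1 : a * M + 0 ≤ a' * M + b := by
    have := Nat.mul_le_mul_right M h
    omega
  have h2 := Nat.mul_le_mul_right M h1
  have h3 : (a * M + 0) * M + 0 ≤ (a' * M + b) * M + c := by omega
  have h4 := Nat.mul_le_mul_right M h3
  have h5 : ((a * M + 0) * M + 0) * M + 0 ≤ ((a' * M + b) * M + c) * M + d := by omega
  have h6 := Nat.mul_le_mul_right M h5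
  omega

/-- every chord contains one of two points -/
theorem chord_seg {M : ℕ} {l : CL} (h : Good M l) :
    ((ch M l).1 + 1 ≤ enc M 1 0 0 0 0 ∧ enc M 1 0 0 0 0 ≤ (ch M l).2) ∨
      ((ch M l).1 + 1 ≤ enc M 4 0 0 0 0 ∧ enc M 4 0 0 0 0 ≤ (ch M l).2) := by
  obtain ⟨k, x, y, i⟩ := l
  obtain ⟨h1, h2, h3, h4⟩ := h
  simp only at h1 h2 h3 h4
  rcases h4 with ⟨rfl, rfl⟩ | rfl | ⟨rfl, rfl⟩ | ⟨rfl, rfl⟩ | rfl | ⟨rfl, rfl⟩ <;>
    simp only [ch0, ch1, ch2, ch3, ch4, ch5]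
  · left
    exact ⟨enc_lt_top (by omega) (by omega) (by omega) (by omega) (by omega),
      enc_top_le (by omega)⟩
  · right
    exact ⟨enc_lt_top (by omega) (by omega) (by omega) (by omega) (by omega),
      enc_top_le (by omega)⟩
  · left
    exact ⟨enc_lt_top (by omega) (by omega) (by omega) (by omega) (by omega),
      enc_top_le (by omega)⟩
  · left
    exact ⟨enc_lt_top (by omega) (by omega) (by omega) (by omega) (by omega),
      enc_top_le (by omega)⟩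
  · right
    exact ⟨enc_lt_top (by omega) (by omega) (by omega) (by omega) (by omega),
      enc_top_le (by omega)⟩
  · left
    exact ⟨enc_lt_top (by omega) (by omega) (by omega) (by omega) (by omega),
      enc_top_le (by omega)⟩

section

variable {M n : ℕ} {A : List (ℕ × ℕ)} {B : List (ℕ × ℕ × ℕ)} {C : List (ℕ × ℕ)}

theorem mem_labs {l : CL} : l ∈ labs A B C ↔
    (∃ a ∈ A, (0, a.1, a.2, 0) = l) ∨ (∃ b ∈ B, (1, b) = l) ∨ (∃ c ∈ C, (2, c.1, c.2, 0) = l) ∨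
    (∃ a ∈ A, (3, a.1, a.2, 0) = l) ∨ (∃ b ∈ B, (4, b) = l) ∨ (∃ c ∈ C, (5, c.1, c.2, 0) = l) := by
  simp only [labs, List.mem_append, List.mem_map]

theorem labs_good (h : Sys M n A B C) {l : CL} (hl : l ∈ labs A B C) : Good M l := by
  have hM := h.M2
  rw [mem_labs] at hl
  rcases hl with ⟨a, ha, rfl⟩ | ⟨a, ha, rfl⟩ | ⟨a, ha, rfl⟩ | ⟨a, ha, rfl⟩ | ⟨a, ha, rfl⟩ |
    ⟨a, ha, rfl⟩
  · have := h.Ab a ha
    exact ⟨this.1, this.2, by simp only; omega, Or.inl ⟨rfl, rfl⟩⟩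
  · have := h.Bb a ha
    exact ⟨this.1, this.2.1, this.2.2, Or.inr (Or.inl rfl)⟩
  · have := h.Cb a ha
    exact ⟨this.1, this.2, by simp only; omega, Or.inr (Or.inr (Or.inl ⟨rfl, rfl⟩))⟩
  · have := h.Ab a ha
    exact ⟨this.1, this.2, by simp only; omega, Or.inr (Or.inr (Or.inr (Or.inl ⟨rfl, rfl⟩)))⟩
  · have := h.Bb a ha
    exact ⟨this.1, this.2.1, this.2.2, Or.inr (Or.inr (Or.inr (Or.inr (Or.inl rfl))))⟩
  · have := h.Cb a ha
    exact ⟨this.1, this.2, by simp only; omega,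
      Or.inr (Or.inr (Or.inr (Or.inr (Or.inr ⟨rfl, rfl⟩))))⟩

theorem labs_nodup (h : Sys M n A B C) : (labs A B C).Nodup := by
  have nA : ∀ k : ℕ, (A.map (fun a => ((k, a.1, a.2, 0) : CL))).Nodup := fun k =>
    h.An.map (fun a b e => by
      simp only [Prod.mk.injEq] at e
      exact Prod.ext e.2.1 e.2.2.1)
  have nC : ∀ k : ℕ, (C.map (fun a => ((k, a.1, a.2, 0) : CL))).Nodup := fun k =>
    h.Cn.map (fun a b e => by
      simp only [Prod.mk.injEq] at e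
      exact Prod.ext e.2.1 e.2.2.1)
  have nB : ∀ k : ℕ, (B.map (fun a => ((k, a) : CL))).Nodup := fun k =>
    h.Bn.map (fun a b e => by
      simp only [Prod.mk.injEq] at e
      exact e.2)
  unfold labs
  rw [List.nodup_append, List.nodup_append, List.nodup_append, List.nodup_append,
    List.nodup_append]
  refine ⟨nA 0, ⟨nB 1, ⟨nC 2, ⟨nA 3, ⟨nB 4, nC 5, ?_⟩, ?_⟩, ?_⟩, ?_⟩, ?_⟩
  all_goals
    intro l hl l' hl' e
    subst e
    simp only [List.mem_map] at hl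
    obtain ⟨a, ha, rfl⟩ := hl
    simp at hl'

/-- the colour of a label -/
def lcol (fA : ℕ × ℕ → ℕ) (fB : ℕ × ℕ × ℕ → ℕ) (fC : ℕ × ℕ → ℕ) (l : CL) : ℕ :=
  if l.1 = 0 ∨ l.1 = 3 then fA (l.2.1, l.2.2.1) else
    if l.1 = 1 ∨ l.1 = 4 then fB l.2 else fC (l.2.1, l.2.2.1)

theorem nocross (h : Sys M n A B C) {fA : ℕ × ℕ → ℕ} {fB : ℕ × ℕ × ℕ → ℕ} {fC : ℕ × ℕ → ℕ}
    (iA : ∀ a ∈ A, ∀ a' ∈ A, fA a = fA a' → a = a')
    (iB : ∀ b ∈ B, ∀ b' ∈ B, fB b = fB b' → b = b')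
    (iC : ∀ c ∈ C, ∀ c' ∈ C, fC c = fC c' → c = c')
    (hAC : ∀ a ∈ A, ∀ c ∈ C, fA a = fC c → a.1 = c.1)
    (hAB : ∀ a ∈ A, ∀ b ∈ B, fA a = fB b → a.2 = b.1)
    (hBC : ∀ b ∈ B, ∀ c ∈ C, fB b = fC c → b.2.1 = c.2) {l l' : CL} (hl : l ∈ labs A B C)
    (hl' : l' ∈ labs A B C) (e : lcol fA fB fC l = lcol fA fB fC l') :
    ¬ Crosses (ch M l) (ch M l') := by
  have hM := h.M2
  -- facts
  rw [mem_labs] at hl hl'
  rcases hl with ⟨⟨x, y⟩, ha, rfl⟩ | ⟨⟨x, y, i⟩, ha, rfl⟩ | ⟨⟨x, y⟩, ha, rfl⟩ | ⟨⟨x, y⟩, ha, rfl⟩ |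
    ⟨⟨x, y, i⟩, ha, rfl⟩ | ⟨⟨x, y⟩, ha, rfl⟩ <;>
  rcases hl' with ⟨⟨x', y'⟩, ha', rfl⟩ | ⟨⟨x', y', i'⟩, ha', rfl⟩ | ⟨⟨x', y'⟩, ha', rfl⟩ |
    ⟨⟨x', y'⟩, ha', rfl⟩ | ⟨⟨x', y', i'⟩, ha', rfl⟩ | ⟨⟨x', y'⟩, ha', rfl⟩ <;>
  simp [lcol] at e <;>
  first
  | (have q := iA _ ha _ ha' e
     have r := h.Ab _ ha
     simp only [Prod.mk.injEq] at q r
     obtain ⟨rfl, rfl⟩ := q
     first
     | (rintro (⟨h1, _⟩ | ⟨h1, _⟩) <;> exact lt_irrefl _ h1)
     | (unfold Crosses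
        simp only [ch0, ch3]
        rw [enc_lt, enc_lt, enc_lt, enc_lt, enc_lt, enc_lt] <;> omega))
  | (have q := iC _ ha _ ha' e
     have r := h.Cb _ ha
     simp only [Prod.mk.injEq] at q r
     obtain ⟨rfl, rfl⟩ := q
     first
     | (rintro (⟨h1, _⟩ | ⟨h1, _⟩) <;> exact lt_irrefl _ h1)
     | (unfold Crosses
        simp only [ch2, ch5]
        rw [enc_lt, enc_lt, enc_lt, enc_lt, enc_lt, enc_lt] <;> omega))
  | (have q := iB _ ha _ ha' e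
     have r := h.Bb _ ha
     simp only [Prod.mk.injEq] at q r
     obtain ⟨rfl, rfl, rfl⟩ := q
     first
     | (rintro (⟨h1, _⟩ | ⟨h1, _⟩) <;> exact lt_irrefl _ h1)
     | (unfold Crosses
        simp only [ch1, ch4]
        rw [enc_lt, enc_lt, enc_lt, enc_lt, enc_lt, enc_lt] <;> omega))
  | (have q := hAC _ ha _ ha' e
     have r := h.Ab _ ha
     have r' := h.Cb _ ha'
     simp only at q r r'
     subst q
     unfold Crosses
     simp only [ch0, ch3, ch2, ch5]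
     rw [enc_lt, enc_lt, enc_lt, enc_lt, enc_lt, enc_lt] <;> omega)
  | (have q := hAC _ ha' _ ha e.symm
     have r := h.Ab _ ha'
     have r' := h.Cb _ ha
     simp only at q r r'
     subst q
     unfold Crosses
     simp only [ch0, ch3, ch2, ch5]
     rw [enc_lt, enc_lt, enc_lt, enc_lt, enc_lt, enc_lt] <;> omega)
  | (have q := hAB _ ha _ ha' e
     have r := h.Ab _ ha
     have r' := h.Bb _ ha'
     simp only at q r r'
     subst q
     unfold Crosses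
     simp only [ch0, ch3, ch1, ch4]
     rw [enc_lt, enc_lt, enc_lt, enc_lt, enc_lt, enc_lt] <;> omega)
  | (have q := hAB _ ha' _ ha e.symm
     have r := h.Ab _ ha'
     have r' := h.Bb _ ha
     simp only at q r r'
     subst q
     unfold Crosses
     simp only [ch0, ch3, ch1, ch4]
     rw [enc_lt, enc_lt, enc_lt, enc_lt, enc_lt, enc_lt] <;> omega)
  | (have q := hBC _ ha _ ha' e
     have r := h.Bb _ ha
     have r' := h.Cb _ ha'
     simp only at q r r'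
     subst q
     unfold Crosses
     simp only [ch1, ch4, ch2, ch5]
     rw [enc_lt, enc_lt, enc_lt, enc_lt, enc_lt, enc_lt] <;> omega)
  | (have q := hBC _ ha' _ ha e.symm
     have r := h.Bb _ ha'
     have r' := h.Cb _ ha
     simp only at q r r'
     subst q
     unfold Crosses
     simp only [ch1, ch4, ch2, ch5]
     rw [enc_lt, enc_lt, enc_lt, enc_lt, enc_lt, enc_lt] <;> omega)

theorem chordSet (h : Sys M n A B C) : IsChordSet (chords M A B C) := by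
  have hn := labs_nodup h
  constructor
  · intro c hc
    unfold chords at hc
    obtain ⟨l, hl, rfl⟩ := List.mem_map.1 hc
    exact chord_lt (labs_good h hl)
  · unfold chords
    rw [List.map_map, List.map_map, List.nodup_append]
    refine ⟨?_, ?_, ?_⟩
    · rw [List.nodup_map_iff_inj_on hn]
      intro l hl l' hl' e
      exact fst_inj (labs_good h hl) (labs_good h hl') e
    · rw [List.nodup_map_iff_inj_on hn]
      intro l hl l' hl' e
      exact snd_inj (labs_good h hl) (labs_good h hl') e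
    · intro p hp q hq e
      obtain ⟨l, hl, rfl⟩ := List.mem_map.1 hp
      obtain ⟨l', hl', rfl⟩ := List.mem_map.1 hq
      exact fst_ne_snd (labs_good h hl) (labs_good h hl') e

theorem segment (h : Sys M n A B C) {g : ℕ} (hg : 3 ≤ g) : IsSegment g (chords M A B C) := by
  refine ⟨fun i => if i.1 = 0 then (enc M 1 0 0 0 0 : ℝ) - 1 / 2 else (enc M 4 0 0 0 0 : ℝ) - 1 / 2,
    ?_⟩
  intro c hc
  unfold chords at hc
  obtain ⟨l, hl, rfl⟩ := List.mem_map.1 hc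
  rcases chord_seg (labs_good h hl) with ⟨h1, h2⟩ | ⟨h1, h2⟩
  · refine ⟨⟨0, by omega⟩, ?_⟩
    have h1' : ((ch M l).1 : ℝ) + 1 ≤ (enc M 1 0 0 0 0 : ℝ) := by exact_mod_cast h1
    have h2' : (enc M 1 0 0 0 0 : ℝ) ≤ ((ch M l).2 : ℝ) := by exact_mod_cast h2
    simp only [if_true]
    constructor <;> linarith
  · refine ⟨⟨1, by omega⟩, ?_⟩
    have h1' : ((ch M l).1 : ℝ) + 1 ≤ (enc M 4 0 0 0 0 : ℝ) := by exact_mod_cast h1
    have h2' : (enc M 4 0 0 0 0 : ℝ) ≤ ((ch M l).2 : ℝ) := by exact_mod_cast h2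
    simp only [one_ne_zero, if_false]
    constructor <;> linarith

theorem complete (h : Sys M n A B C) (hm : Match n A B C) : Colourable (chords M A B C) n := by
  classical
  obtain ⟨fA, fB, fC, ⟨lA, lB, lC⟩, ⟨iA, iB, iC⟩, hAC, hAB, hBC⟩ := hm
  have inj : ∀ l ∈ labs A B C, ∀ l' ∈ labs A B C, ch M l = ch M l' → l = l' := by
    intro l hl l' hl' e
    exact fst_inj (labs_good h hl) (labs_good h hl') (congrArg Prod.fst e)
  let f : ℕ × ℕ → ℕ := fun c =>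
    if hc : ∃ l ∈ labs A B C, ch M l = c then lcol fA fB fC hc.choose else 0
  have fv : ∀ l ∈ labs A B C, f (ch M l) = lcol fA fB fC l := by
    intro l hl
    have hc : ∃ l' ∈ labs A B C, ch M l' = ch M l := ⟨l, hl, rfl⟩
    simp only [f, dif_pos hc]
    rw [inj _ hc.choose_spec.1 _ hl hc.choose_spec.2]
  refine ⟨f, ?_, ?_⟩
  · intro c hc
    unfold chords at hc
    obtain ⟨l, hl, rfl⟩ := List.mem_map.1 hc
    rw [fv l hl]
    rw [mem_labs] at hl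
    rcases hl with ⟨a, ha, rfl⟩ | ⟨a, ha, rfl⟩ | ⟨a, ha, rfl⟩ | ⟨a, ha, rfl⟩ | ⟨a, ha, rfl⟩ |
      ⟨a, ha, rfl⟩ <;> simp [lcol] <;>
      first
      | exact lA a ha
      | exact lB a ha
      | exact lC a ha
  · intro a ha b hb hab
    unfold chords at ha hb
    obtain ⟨l, hl, rfl⟩ := List.mem_map.1 ha
    obtain ⟨l', hl', rfl⟩ := List.mem_map.1 hb
    rw [fv l hl, fv l' hl']
    intro e
    exact nocross h iA iB iC hAC hAB hBC hl hl' e hab

theorem main (h : Sys M n A B C) {g : ℕ} (hg : 3 ≤ g) :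
    SegmentColouring g (chords M A B C, n) ↔ Match n A B C := by
  constructor
  · rintro ⟨_, _, f, h1, h2⟩
    exact sound h f h1 h2
  · intro hm
    exact ⟨chordSet h, segment h hg, complete h hm⟩

end

end Pool.Agent.R552.Seg
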