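import Pool.Agent.R552.Seg.Defs

/-!
# The chord set of a tripartite system of edges
-/

namespace Pool.Agent.R552.Seg

theorem lt2 {M a b a' b' : ℕ} (hb : b < M) (hb' : b' < M) :
    a * M + b < a' * M + b' ↔ a < a' ∨ (a = a' ∧ b < b') := by
  rcases lt_trichotomy a a' with h | h | h
  · have h1 : (a + 1) * M ≤ a' * M := Nat.mul_le_mul_right _ h
    rw [Nat.add_mul] at h1
    constructor
    · intro _; exact Or.inl h
    · intro _; omega
  · subst h
    constructor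
    · intro h1; exact Or.inr ⟨rfl, by omega⟩
    · rintro (h1 | ⟨_, h1⟩)
      · omega
      · omega
  · have h1 : (a' + 1) * M ≤ a * M := Nat.mul_le_mul_right _ h
    rw [Nat.add_mul] at h1
    constructor
    · intro _; omega
    · rintro (h2 | ⟨h2, _⟩) <;> omega

theorem eq2 {M a b a' b' : ℕ} (hb : b < M) (hb' : b' < M) :
    a * M + b = a' * M + b' ↔ a = a' ∧ b = b' := by
  have h1 := lt2 (a := a) (a' := a') hb hb'
  have h2 := lt2 (a := a') (a' := a) hb' hb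
  constructor
  · intro h
    have h3 : ¬ (a < a' ∨ (a = a' ∧ b < b')) := fun hc => by
      have := h1.2 hc
      omega
    have h4 : ¬ (a' < a ∨ (a' = a ∧ b' < b)) := fun hc => by
      have := h2.2 hc
      omega
    omega
  · rintro ⟨rfl, rfl⟩; rfl

/-- numbers with five digits in base `M` (the first digit is not bounded) -/
def enc (M a b c d e : ℕ) : ℕ := (((a * M + b) * M + c) * M + d) * M + e

theorem enc_lt {M a b c d e a' b' c' d' e' : ℕ} (hb : b < M) (hc : c < M) (hd : d < M) (he : e < M)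
    (hb' : b' < M) (hc' : c' < M) (hd' : d' < M) (he' : e' < M) :
    enc M a b c d e < enc M a' b' c' d' e' ↔
      a < a' ∨ (a = a' ∧ (b < b' ∨ (b = b' ∧ (c < c' ∨ (c = c' ∧ (d < d' ∨ (d = d' ∧ e < e'))))))) := by
  unfold enc
  rw [lt2 he he', lt2 hd hd', eq2 hd hd', lt2 hc hc', eq2 hc hc', lt2 hb hb', eq2 hb hb']
  tauto

theorem enc_eq {M a b c d e a' b' c' d' e' : ℕ} (hb : b < M) (hc : c < M) (hd : d < M) (he : e < M)
    (hb' : b' < M) (hc' : c' < M) (hd' : d' < M) (he' : e' < M) :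
    enc M a b c d e = enc M a' b' c' d' e' ↔
      a = a' ∧ b = b' ∧ c = c' ∧ d = d' ∧ e = e' := by
  unfold enc
  rw [eq2 he he', eq2 hd hd', eq2 hc hc', eq2 hb hb']
  tauto

/-- labels of chords: kind and three coordinates -/
abbrev CL : Type := ℕ × ℕ × ℕ × ℕ

/-- The chord of a label. The kinds: `0` is an edge `(x, y)`, `1` an edge `(y, z, i)`, `2` an edge
`(x, z)`, and `3, 4, 5` are the auxiliary chords of these. -/
def ch (M : ℕ) (l : CL) : ℕ × ℕ :=
  if l.1 = 0 then (enc M 0 l.2.1 1 l.2.2.1 0, enc M 2 l.2.2.1 0 l.2.1 0) else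
  if l.1 = 1 then (enc M 2 l.2.1 1 l.2.2.1 l.2.2.2, enc M 4 l.2.2.1 0 l.2.1 (2 * l.2.2.2 + 1)) else
  if l.1 = 2 then (enc M 0 l.2.1 0 l.2.2.1 1, enc M 4 l.2.2.1 1 l.2.1 0) else
  if l.1 = 3 then (enc M 0 l.2.1 1 l.2.2.1 1, enc M 1 l.2.1 l.2.2.1 0 0) else
  if l.1 = 4 then (enc M 3 l.2.2.1 l.2.1 l.2.2.2 0, enc M 4 l.2.2.1 0 l.2.1 (2 * l.2.2.2)) else
  (enc M 0 l.2.1 0 l.2.2.1 0, enc M 5 l.2.1 l.2.2.1 0 0)

/-- the labels of the chords -/
def labs (A : List (ℕ × ℕ)) (B : List (ℕ × ℕ × ℕ)) (C : List (ℕ × ℕ)) : List CL :=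
  A.map (fun a => (0, a.1, a.2, 0)) ++ (B.map (fun b => (1, b)) ++
    (C.map (fun c => (2, c.1, c.2, 0)) ++ (A.map (fun a => (3, a.1, a.2, 0)) ++
      (B.map (fun b => (4, b)) ++ C.map (fun c => (5, c.1, c.2, 0))))))

/-- the chord set -/
def chords (M : ℕ) (A : List (ℕ × ℕ)) (B : List (ℕ × ℕ × ℕ)) (C : List (ℕ × ℕ)) :
    List (ℕ × ℕ) := (labs A B C).map (ch M)

/-- the assumptions about the edges -/
structure Sys (M n : ℕ) (A : List (ℕ × ℕ)) (B : List (ℕ × ℕ × ℕ)) (C : List (ℕ × ℕ)) : Prop where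
  M2 : 2 ≤ M
  An : A.Nodup
  Bn : B.Nodup
  Cn : C.Nodup
  Al : A.length = n
  Bl : B.length = n
  Cl : C.length = n
  Ab : ∀ a ∈ A, a.1 < M ∧ a.2 < M
  Bb : ∀ b ∈ B, b.1 < M ∧ b.2.1 < M ∧ 2 * b.2.2 + 1 < M
  Cb : ∀ c ∈ C, c.1 < M ∧ c.2 < M
  sx : (A.map Prod.fst).sum = (C.map Prod.fst).sum
  sy : (A.map Prod.snd).sum = (B.map Prod.fst).sum
  sz : (B.map (fun b => b.2.1)).sum = (C.map Prod.snd).sum

theorem match_eq {α β : Type} [DecidableEq α] [DecidableEq β] {S : Finset α} {T : Finset β}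
    {f : α → ℕ} {g : β → ℕ} {n : ℕ} (hf : ∀ s ∈ S, ∀ s' ∈ S, f s = f s' → s = s')
    (hg : ∀ s ∈ T, ∀ s' ∈ T, g s = g s' → s = s') (hfn : ∀ s ∈ S, f s < n) (hgn : ∀ t ∈ T, g t < n)
    (hS : S.card = n) (hT : T.card = n) {w : α → ℕ} {w' : β → ℕ}
    (hle : ∀ s ∈ S, ∀ t ∈ T, f s = g t → w s ≤ w' t) (hsum : ∑ s ∈ S, w s = ∑ t ∈ T, w' t) :
    (∀ s ∈ S, ∃ t ∈ T, g t = f s) ∧ ∀ s ∈ S, ∀ t ∈ T, f s = g t → w s = w' t := by
  classical
  have imS : S.image f = Finset.range n := by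
    apply Finset.eq_of_subset_of_card_le
    · intro k hk
      obtain ⟨s, hs, rfl⟩ := Finset.mem_image.1 hk
      exact Finset.mem_range.2 (hfn s hs)
    · rw [Finset.card_image_of_injOn (fun s hs s' hs' h => hf s hs s' hs' h), hS, Finset.card_range]
  have imT : T.image g = Finset.range n := by
    apply Finset.eq_of_subset_of_card_le
    · intro k hk
      obtain ⟨s, hs, rfl⟩ := Finset.mem_image.1 hk
      exact Finset.mem_range.2 (hgn s hs)
    · rw [Finset.card_image_of_injOn (fun s hs s' hs' h => hg s hs s' hs' h), hT, Finset.card_range]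
  have ex : ∀ s ∈ S, ∃ t ∈ T, g t = f s := by
    intro s hs
    have : f s ∈ T.image g := by rw [imT]; exact Finset.mem_range.2 (hfn s hs)
    obtain ⟨t, ht, h⟩ := Finset.mem_image.1 this
    exact ⟨t, ht, h⟩
  refine ⟨ex, ?_⟩
  rcases S.eq_empty_or_nonempty with hE | ⟨s0, hs0⟩
  · subst hE
    intro s hs
    exact absurd hs (Finset.notMem_empty s)
  haveI : Nonempty β := ⟨(ex s0 hs0).choose⟩
  choose! t ht1 ht2 using ex
  have inj : ∀ s ∈ S, ∀ s' ∈ S, t s = t s' → s = s' := by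
    intro s hs s' hs' h
    apply hf s hs s' hs'
    rw [← ht2 s hs, ← ht2 s' hs', h]
  have im : S.image t = T := by
    apply Finset.eq_of_subset_of_card_le
    · intro k hk
      obtain ⟨s, hs, rfl⟩ := Finset.mem_image.1 hk
      exact ht1 s hs
    · rw [Finset.card_image_of_injOn (fun s hs s' hs' h => inj s hs s' hs' h), hS, hT]
  have hsum' : ∑ s ∈ S, w s = ∑ s ∈ S, w' (t s) := by
    rw [hsum, ← im, Finset.sum_image (fun s hs s' hs' h => inj s hs s' hs' h)]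
  have heq := (Finset.sum_eq_sum_iff_of_le
    (fun s hs => hle s hs (t s) (ht1 s hs) (ht2 s hs).symm)).1 hsum'
  intro s hs u hu h
  have : t s = u := hg _ (ht1 s hs) _ hu (by rw [ht2 s hs, h])
  rw [heq s hs, this]

end Pool.Agent.R552.Seg
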