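import Pool.Agent.R552.Seg.Red

/-!
# Correctness of the reduction
-/

namespace Pool.Agent.R552.Seg

open Pool.Agent.NPC.WC648 Pool.Agent.H648R3.WC

theorem memA0 {φ : List (NV × NV × NV)} {o : ℕ} (ho : o < 4 * φ.length) : (2 * o, 4 * o) ∈ eA φ :=
  mem_eA.2 ⟨o, ho, Or.inl rfl⟩
theorem memA1 {φ : List (NV × NV × NV)} {o : ℕ} (ho : o < 4 * φ.length) :
    (2 * nx φ o, 4 * o + 1) ∈ eA φ := mem_eA.2 ⟨o, ho, Or.inr (Or.inl rfl)⟩
theorem memA2 {φ : List (NV × NV × NV)} {o : ℕ} (ho : o < 4 * φ.length) :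
    (2 * o, 4 * (o / 4) + 2) ∈ eA φ := mem_eA.2 ⟨o, ho, Or.inr (Or.inr (Or.inl rfl))⟩
theorem memA3 {φ : List (NV × NV × NV)} {o : ℕ} (ho : o < 4 * φ.length) :
    (2 * o + 1, 4 * o) ∈ eA φ := mem_eA.2 ⟨o, ho, Or.inr (Or.inr (Or.inr (Or.inl rfl)))⟩
theorem memA4 {φ : List (NV × NV × NV)} {o : ℕ} (ho : o < 4 * φ.length) :
    (2 * o + 1, 4 * o + 1) ∈ eA φ := mem_eA.2 ⟨o, ho, Or.inr (Or.inr (Or.inr (Or.inr (Or.inl rfl))))⟩
theorem memA5 {φ : List (NV × NV × NV)} {o : ℕ} (ho : o < 4 * φ.length) :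
    (2 * o + 1, 4 * (o / 4) + 3) ∈ eA φ :=
  mem_eA.2 ⟨o, ho, Or.inr (Or.inr (Or.inr (Or.inr (Or.inr rfl))))⟩

theorem eB0 {φ : List (NV × NV × NV)} {o : ℕ} {b : ℕ × ℕ × ℕ} (hb : b ∈ eB φ) (h : b.1 = 4 * o) :
    b = (4 * o, 0, 0) ∨ b = (4 * o, 1, 0) := by
  obtain ⟨y, z, i⟩ := b
  rw [mem_eB] at hb
  obtain ⟨o', ho', hb⟩ := hb
  simp only [Prod.mk.injEq] at hb h ⊢
  omega

theorem eB1 {φ : List (NV × NV × NV)} {o : ℕ} {b : ℕ × ℕ × ℕ} (hb : b ∈ eB φ)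
    (h : b.1 = 4 * o + 1) : b = (4 * o + 1, 1, 0) ∨ b = (4 * o + 1, 2, 0) := by
  obtain ⟨y, z, i⟩ := b
  rw [mem_eB] at hb
  obtain ⟨o', ho', hb⟩ := hb
  simp only [Prod.mk.injEq] at hb h ⊢
  omega

theorem eB2 {φ : List (NV × NV × NV)} {j : ℕ} {b : ℕ × ℕ × ℕ} (hb : b ∈ eB φ)
    (h : b.1 = 4 * j + 2) : (b.2.1 = 0 ∨ b.2.1 = 2) ∧ (b.2.2 = 0 ∨ b.2.2 = 1) := by
  obtain ⟨y, z, i⟩ := b
  rw [mem_eB] at hb
  obtain ⟨o', ho', hb⟩ := hb
  simp only [Prod.mk.injEq] at hb h ⊢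
  omega

theorem eB3 {φ : List (NV × NV × NV)} {j : ℕ} {b : ℕ × ℕ × ℕ} (hb : b ∈ eB φ)
    (h : b.1 = 4 * j + 3) : (b.2.1 = 0 ∨ b.2.1 = 2) ∧ (b.2.2 = 0 ∨ b.2.2 = 1) := by
  obtain ⟨y, z, i⟩ := b
  rw [mem_eB] at hb
  obtain ⟨o', ho', hb⟩ := hb
  simp only [Prod.mk.injEq] at hb h ⊢
  omega

section sound

variable {φ : List (NV × NV × NV)} {δ : ℕ × ℕ → ℕ × ℕ × ℕ} (hδ : Edg (eA φ) (eB φ) (eC φ) δ)

include hδ

/-- two edges with the same `x` have different colours -/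
theorem Edg.nex {a a' : ℕ × ℕ} (h : a ∈ eA φ) (h' : a' ∈ eA φ) (hx : a.1 = a'.1) (hy : a.2 ≠ a'.2) :
    (δ a).2.1 ≠ (δ a').2.1 := fun e => hy (congrArg Prod.snd (hδ.injx a h a' h' hx e))

/-- two edges are matched to different edges -/
theorem Edg.ney {a a' : ℕ × ℕ} (h : a ∈ eA φ) (h' : a' ∈ eA φ) (hx : a.1 ≠ a'.1) :
    δ a ≠ δ a' := fun e => hx (congrArg Prod.fst (hδ.inj a h a' h' e))

/-- the state of an occurrence -/
theorem state {o : ℕ} (ho : o < 4 * φ.length) :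
    ((δ (2 * o + 1, 4 * (o / 4) + 3)).2.1 = 0 ∧ (δ (2 * o, 4 * (o / 4) + 2)).2.1 = 2 ∧
      (δ (2 * o, 4 * o)).2.1 = 0 ∧ (δ (2 * nx φ o, 4 * o + 1)).2.1 = 1) ∨
    ((δ (2 * o + 1, 4 * (o / 4) + 3)).2.1 = 2 ∧ (δ (2 * o, 4 * (o / 4) + 2)).2.1 = 0 ∨
      (δ (2 * o + 1, 4 * (o / 4) + 3)).2.1 = 2 ∧ (δ (2 * o, 4 * (o / 4) + 2)).2.1 = 2) ∧
      (δ (2 * o, 4 * o)).2.1 = 1 ∧ (δ (2 * nx φ o, 4 * o + 1)).2.1 = 2 := by
  have a0 := memA0 ho
  have a1 := memA1 ho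
  have a2 := memA2 ho
  have a3 := memA3 ho
  have a4 := memA4 ho
  have a5 := memA5 ho
  have q := eB3 (hδ.memB _ a5) (hδ.fst _ a5)
  have p := eB2 (hδ.memB _ a2) (hδ.fst _ a2)
  have w := eB0 (hδ.memB _ a3) (hδ.fst _ a3)
  have w' := eB0 (hδ.memB _ a0) (hδ.fst _ a0)
  have u := eB1 (hδ.memB _ a4) (hδ.fst _ a4)
  have u' := eB1 (hδ.memB _ a1) (hδ.fst _ a1)
  have n1 := Edg.nex hδ a3 a4 rfl (by simp only; omega)
  have n2 := Edg.nex hδ a3 a5 rfl (by simp only; omega)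
  have n3 := Edg.nex hδ a4 a5 rfl (by simp only; omega)
  have n4 := Edg.nex hδ a0 a2 rfl (by simp only; omega)
  have n5 := Edg.ney hδ a0 a3 (by simp only; omega)
  have n6 := Edg.ney hδ a1 a4 (by simp only; omega)
  rcases w with w | w <;> rcases w' with w' | w' <;> rcases u with u | u <;> rcases u' with u' | u' <;>
    rw [w, w'] at n5 <;> rw [u, u'] at n6 <;> rw [w, u] at n1 <;> rw [w] at n2 <;> rw [u] at n3 <;>
    rw [w'] at n4 <;> rw [w', u'] <;> simp only [Prod.mk.injEq, ne_eq, not_true, and_true] at * <;>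
    omega

/-- the state moves to the next occurrence -/
theorem state_nx {o : ℕ} (ho : o < 4 * φ.length) :
    (δ (2 * nx φ o + 1, 4 * (nx φ o / 4) + 3)).2.1 = (δ (2 * o + 1, 4 * (o / 4) + 3)).2.1 ∧
    (δ (2 * nx φ o, 4 * (nx φ o / 4) + 2)).2.1 + (δ (2 * o + 1, 4 * (o / 4) + 3)).2.1 = 2 := by
  have hn : nx φ o < 4 * φ.length := nxtf_lt ho
  have s1 := state hδ ho
  have s2 := state hδ hn
  have a1 := memA1 ho
  have a0 := memA0 hn
  have a2 := memA2 hn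
  have n1 := Edg.nex hδ a0 a1 rfl (by simp only; omega)
  have n2 := Edg.nex hδ a1 a2 rfl (by simp only; omega)
  have q := eB3 (hδ.memB _ (memA5 hn)) (hδ.fst _ (memA5 hn))
  have p := eB2 (hδ.memB _ a2) (hδ.fst _ a2)
  omega

/-- the truth value of an occurrence -/
theorem state_fin {o : ℕ} (ho : o < 4 * φ.length) :
    (δ (2 * o, 4 * (o / 4) + 2)).2.1 + (δ (2 * o + 1, 4 * (o / 4) + 3)).2.1 = 2 := by
  obtain ⟨o', ho'⟩ := (perm (4 * φ.length) (occ φ)).surjective ⟨o, ho⟩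
  have h1 : nx φ o' = o := congrArg Fin.val ho'
  have h2 := state_nx hδ o'.isLt
  rw [h1] at h2
  omega

theorem const {o o' : ℕ} (ho : o < 4 * φ.length) (ho' : o' < 4 * φ.length)
    (h : occ φ o = occ φ o') :
    (δ (2 * o, 4 * (o / 4) + 2)).2.1 = (δ (2 * o', 4 * (o' / 4) + 2)).2.1 := by
  classical
  have key := perm_const (N := 4 * φ.length) (f := occ φ)
    (y := fun o => decide ((δ (2 * (o : ℕ), 4 * ((o : ℕ) / 4) + 2)).2.1 = 0)) (by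
      intro o
      have h1 := state_nx hδ o.isLt
      have h2 := state_fin hδ o.isLt
      have h3 : ((perm (4 * φ.length) (occ φ) o : Fin _) : ℕ) = nx φ o := rfl
      simp only [h3, decide_eq_decide]
      omega) ⟨o, ho⟩ ⟨o', ho'⟩ h
  simp only [decide_eq_decide] at key
  have p := eB2 (hδ.memB _ (memA2 ho)) (hδ.fst _ (memA2 ho))
  have p' := eB2 (hδ.memB _ (memA2 ho')) (hδ.fst _ (memA2 ho'))
  omega

/-- at most two occurrences in a clause with the same value -/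
theorem three {j r1 r2 r3 : ℕ} (h1 : r1 < r2) (h2 : r2 < r3) (h3 : r3 < 4) (hj : j < φ.length)
    (e1 : (δ (2 * (4 * j + r1), 4 * ((4 * j + r1) / 4) + 2)).2.1 =
      (δ (2 * (4 * j + r2), 4 * ((4 * j + r2) / 4) + 2)).2.1)
    (e2 : (δ (2 * (4 * j + r2), 4 * ((4 * j + r2) / 4) + 2)).2.1 =
      (δ (2 * (4 * j + r3), 4 * ((4 * j + r3) / 4) + 2)).2.1) : False := by
  have a1 := memA2 (φ := φ) (o := 4 * j + r1) (by omega)
  have a2 := memA2 (φ := φ) (o := 4 * j + r2) (by omega)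
  have a3 := memA2 (φ := φ) (o := 4 * j + r3) (by omega)
  have p1 := eB2 (hδ.memB _ a1) (hδ.fst _ a1)
  have p2 := eB2 (hδ.memB _ a2) (hδ.fst _ a2)
  have p3 := eB2 (hδ.memB _ a3) (hδ.fst _ a3)
  have f1 := hδ.fst _ a1
  have f2 := hδ.fst _ a2
  have f3 := hδ.fst _ a3
  have n1 := Edg.ney hδ a1 a2 (by simp only; omega)
  have n2 := Edg.ney hδ a1 a3 (by simp only; omega)
  have n3 := Edg.ney hδ a2 a3 (by simp only; omega)
  simp only at f1 f2 f3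
  rw [show (4 * j + r1) / 4 = j by omega] at *
  rw [show (4 * j + r2) / 4 = j by omega] at *
  rw [show (4 * j + r3) / 4 = j by omega] at *
  have q : ∀ {b b' : ℕ × ℕ × ℕ}, b ≠ b' → b.1 = b'.1 → b.2.1 = b'.2.1 → b.2.2 ≠ b'.2.2 :=
    fun h g1 g2 g3 => h (Prod.ext g1 (Prod.ext g2 g3))
  have q1 := q n1 (f1.trans f2.symm) e1
  have q2 := q n2 (f1.trans f3.symm) (e1.trans e2)
  have q3 := q n3 (f2.trans f3.symm) e2
  omega

theorem nae_of : NAE φ := by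
  classical
  let τ : NV → Bool := fun v => decide (∃ o < 4 * φ.length, occ φ o = (0, v) ∧
    (δ (2 * o, 4 * (o / 4) + 2)).2.1 = 0)
  have hτ : ∀ o < 4 * φ.length, ∀ v, occ φ o = (0, v) →
      (τ v = true ↔ (δ (2 * o, 4 * (o / 4) + 2)).2.1 = 0) := by
    intro o ho v hv
    simp only [τ, decide_eq_true_eq]
    constructor
    · rintro ⟨o', ho', h1, h2⟩
      rw [const hδ ho ho' (hv.trans h1.symm)]
      exact h2
    · intro h
      exact ⟨o, ho, hv, h⟩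
  refine ⟨τ, ?_⟩
  intro t ht
  obtain ⟨j, hj, rfl⟩ := List.getElem_of_mem ht
  have g : φ.getD j ((0, 0, false), (0, 0, false), (0, 0, false)) = φ[j] := by
    rw [List.getD_eq_getElem?_getD, List.getElem?_eq_getElem hj]
    rfl
  have o0 : occ φ (4 * j + 0) = (0, φ[j].1) := by
    unfold occ
    rw [if_neg (by omega), if_pos (by omega), show (4 * j + 0) / 4 = j by omega, g]
  have o1 : occ φ (4 * j + 1) = (0, φ[j].2.1) := by
    unfold occ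
    rw [if_neg (by omega), if_neg (by omega), if_pos (by omega),
      show (4 * j + 1) / 4 = j by omega, g]
  have o2 : occ φ (4 * j + 2) = (0, φ[j].2.2) := by
    unfold occ
    rw [if_neg (by omega), if_neg (by omega), if_neg (by omega),
      show (4 * j + 2) / 4 = j by omega, g]
  have t0 := hτ (4 * j + 0) (by omega) _ o0
  have t1 := hτ (4 * j + 1) (by omega) _ o1
  have t2 := hτ (4 * j + 2) (by omega) _ o2
  have a1 := memA2 (φ := φ) (o := 4 * j + 0) (by omega)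
  have a2 := memA2 (φ := φ) (o := 4 * j + 1) (by omega)
  have a3 := memA2 (φ := φ) (o := 4 * j + 2) (by omega)
  have p1 := eB2 (hδ.memB _ a1) (hδ.fst _ a1)
  have p2 := eB2 (hδ.memB _ a2) (hδ.fst _ a2)
  have p3 := eB2 (hδ.memB _ a3) (hδ.fst _ a3)
  rintro ⟨e1, e2⟩
  rw [e1] at t0
  rw [← e2] at t2
  refine three hδ (j := j) (r1 := 0) (r2 := 1) (r3 := 2) (by omega) (by omega) (by omega) hj ?_ ?_
  · have := t0.symm.trans t1
    omega
  · have := t1.symm.trans t2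
    omega

end sound

end Pool.Agent.R552.Seg
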