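import Pool.Agent.R552.Seg.Corr

/-!
# Correctness of the reduction: from an assignment to a matching
-/

namespace Pool.Agent.R552.Seg

open Pool.Agent.NPC.WC648 Pool.Agent.H648R3.WC

/-- the colour numbers of the edges -/
def zw (s : ℕ → Bool) (o : ℕ) : ℕ := if s o then 1 else 0
def zu (s : ℕ → Bool) (o : ℕ) : ℕ := if s o then 2 else 1
def zq (s : ℕ → Bool) (o : ℕ) : ℕ := if s o then 0 else 2
def zp (s : ℕ → Bool) (o : ℕ) : ℕ := if s o then 2 else 0
open Classical in
/-- the rank of an occurrence among those of its clause with the same value -/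
noncomputable def rk (s : ℕ → Bool) (o : ℕ) : ℕ :=
  if ∃ o' < o, o' / 4 = o / 4 ∧ s o' = s o then 1 else 0

/-- the matching -/
noncomputable def mt (s : ℕ → Bool) (a : ℕ × ℕ) : ℕ × ℕ × ℕ :=
  (a.2, if a.2 % 4 = 0 then (if a.1 % 2 = 0 then (1 - zw s (a.2 / 4), 0) else (zw s (a.2 / 4), 0))
    else if a.2 % 4 = 1 then (if a.1 % 2 = 0 then (3 - zu s (a.2 / 4), 0) else (zu s (a.2 / 4), 0))
    else if a.2 % 4 = 2 then (zp s (a.1 / 2), rk s (a.1 / 2)) else (zq s (a.1 / 2), rk s (a.1 / 2)))

theorem mt0 (s : ℕ → Bool) (o : ℕ) : mt s (2 * o, 4 * o) = (4 * o, 1 - zw s o, 0) := by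
  unfold mt
  simp only
  rw [if_pos (by omega), if_pos (by omega), show 4 * o / 4 = o by omega]
theorem mt1 (s : ℕ → Bool) (o x : ℕ) : mt s (2 * x, 4 * o + 1) = (4 * o + 1, 3 - zu s o, 0) := by
  unfold mt
  simp only
  rw [if_neg (by omega), if_pos (by omega), if_pos (by omega), show (4 * o + 1) / 4 = o by omega]
theorem mt2 (s : ℕ → Bool) (o j : ℕ) : mt s (2 * o, 4 * j + 2) = (4 * j + 2, zp s o, rk s o) := by
  unfold mt
  simp only
  rw [if_neg (by omega), if_neg (by omega), if_pos (by omega), show 2 * o / 2 = o by omega]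
theorem mt3 (s : ℕ → Bool) (o : ℕ) : mt s (2 * o + 1, 4 * o) = (4 * o, zw s o, 0) := by
  unfold mt
  simp only
  rw [if_pos (by omega), if_neg (by omega), show 4 * o / 4 = o by omega]
theorem mt4 (s : ℕ → Bool) (o : ℕ) : mt s (2 * o + 1, 4 * o + 1) = (4 * o + 1, zu s o, 0) := by
  unfold mt
  simp only
  rw [if_neg (by omega), if_pos (by omega), if_neg (by omega), show (4 * o + 1) / 4 = o by omega]
theorem mt5 (s : ℕ → Bool) (o j : ℕ) :
    mt s (2 * o + 1, 4 * j + 3) = (4 * j + 3, zq s o, rk s o) := by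
  unfold mt
  simp only
  rw [if_neg (by omega), if_neg (by omega), if_neg (by omega), show (2 * o + 1) / 2 = o by omega]

theorem rk_inj {s : ℕ → Bool} {m : ℕ} (h3 : ∀ j < m, ∀ r1 r2 r3, r1 < r2 → r2 < r3 → r3 < 4 →
    ¬ (s (4 * j + r1) = s (4 * j + r2) ∧ s (4 * j + r2) = s (4 * j + r3))) {o o' : ℕ}
    (ho : o < 4 * m) (ho' : o' < 4 * m) (hj : o / 4 = o' / 4) (hs : s o = s o')
    (hr : rk s o = rk s o') : o = o' := by
  have key : ∀ o o' : ℕ, o < 4 * m → o' < 4 * m → o / 4 = o' / 4 → s o = s o' →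
      rk s o = rk s o' → ¬ o < o' := by
    intro o o' ho ho' hj hs hr hlt
    have h1 : rk s o' = 1 := by
      unfold rk
      rw [if_pos ⟨o, hlt, hj, hs⟩]
    rw [h1] at hr
    unfold rk at hr
    have h2 : ∃ o'' < o, o'' / 4 = o / 4 ∧ s o'' = s o := by
      by_contra hc
      rw [if_neg hc] at hr
      omega
    obtain ⟨o'', h4, h5, h6⟩ := h2
    refine h3 (o / 4) (by omega) (o'' % 4) (o % 4) (o' % 4) (by omega) (by omega) (by omega)
      ⟨?_, ?_⟩
    · rw [show 4 * (o / 4) + o'' % 4 = o'' by omega, show 4 * (o / 4) + o % 4 = o by omega]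
      exact h6
    · rw [show 4 * (o / 4) + o' % 4 = o' by omega, show 4 * (o / 4) + o % 4 = o by omega]
      exact hs
  have k1 := key o o' ho ho' hj hs hr
  have k2 := key o' o ho' ho hj.symm hs.symm hr.symm
  omega

theorem rk_lt (s : ℕ → Bool) (o : ℕ) : rk s o < 2 := by
  unfold rk
  split_ifs <;> omega

theorem edg_of {φ : List (NV × NV × NV)} {s : ℕ → Bool}
    (hnx : ∀ o < 4 * φ.length, s (nx φ o) = s o)
    (h3 : ∀ j < φ.length, ∀ r1 r2 r3, r1 < r2 → r2 < r3 → r3 < 4 →
    ¬ (s (4 * j + r1) = s (4 * j + r2) ∧ s (4 * j + r2) = s (4 * j + r3))) :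
    Edg (eA φ) (eB φ) (eC φ) (mt s) := by
  have hnl : ∀ o < 4 * φ.length, nx φ o < 4 * φ.length := fun o ho => nxtf_lt ho
  have hnxi : ∀ o < 4 * φ.length, ∀ o' < 4 * φ.length, nx φ o = nx φ o' → o = o' :=
    fun o ho o' ho' e => nxtf_inj ho ho' e
  -- how the `z` arise
  have zz : ∀ o, (zw s o = 1 ∧ zu s o = 2 ∧ zq s o = 0 ∧ zp s o = 2) ∨
      (zw s o = 0 ∧ zu s o = 1 ∧ zq s o = 2 ∧ zp s o = 0) := by
    intro o
    unfold zw zu zq zp
    cases s o <;> simp
  have zs : ∀ o o', zp s o = zp s o' → s o = s o' := by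
    intro o o'
    unfold zp
    cases s o <;> cases s o' <;> simp
  have zs' : ∀ o o', zq s o = zq s o' → s o = s o' := by
    intro o o'
    unfold zq
    cases s o <;> cases s o' <;> simp
  have zn : ∀ o < 4 * φ.length, zw s (nx φ o) = zw s o ∧ zu s (nx φ o) = zu s o ∧
      zq s (nx φ o) = zq s o ∧ zp s (nx φ o) = zp s o := by
    intro o ho
    unfold zw zu zq zp
    rw [hnx o ho]
    simp
  have bmem : ∀ o < 4 * φ.length, ∀ z i k, (z = 0 ∨ z = 2) → i < 2 → (k = 2 ∨ k = 3) →
      ((4 * (o / 4) + k, z, i) : ℕ × ℕ × ℕ) ∈ eB φ := by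
    intro o ho z i k hz hi hk
    rw [mem_eB]
    refine ⟨4 * (o / 4) + z + i, by omega, ?_⟩
    have e1 : (4 * (o / 4) + z + i) / 4 = o / 4 := by omega
    have e2 : (4 * (o / 4) + z + i) % 4 / 2 * 2 = z := by
      rcases hz with rfl | rfl <;> omega
    have e3 : (4 * (o / 4) + z + i) % 2 = i := by
      rcases hz with rfl | rfl <;> omega
    rw [e1, e3, mul_comm 2, e2]
    rcases hk with rfl | rfl
    · exact Or.inr (Or.inr (Or.inr (Or.inr (Or.inl rfl))))
    · exact Or.inr (Or.inr (Or.inr (Or.inr (Or.inr rfl))))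
  constructor
  · intro a ha
    rw [mem_eA] at ha
    obtain ⟨o, ho, ha⟩ := ha
    have z := zz o
    have hr := rk_lt s o
    rcases ha with rfl | rfl | rfl | rfl | rfl | rfl
    · rw [mt0, mem_eB]
      refine ⟨o, ho, ?_⟩
      simp only [Prod.mk.injEq, true_and, and_true]
      omega
    · rw [mt1, mem_eB]
      refine ⟨o, ho, ?_⟩
      simp only [Prod.mk.injEq, true_and, and_true]
      omega
    · rw [mt2]
      exact bmem o ho _ _ _ (by omega) hr (by omega)
    · rw [mt3, mem_eB]
      refine ⟨o, ho, ?_⟩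
      simp only [Prod.mk.injEq, true_and, and_true]
      omega
    · rw [mt4, mem_eB]
      refine ⟨o, ho, ?_⟩
      simp only [Prod.mk.injEq, true_and, and_true]
      omega
    · rw [mt5]
      exact bmem o ho _ _ _ (by omega) hr (by omega)
  · intro a ha
    rfl
  · intro a ha
    rw [mem_eA] at ha
    obtain ⟨o, ho, ha⟩ := ha
    have z := zz o
    rcases ha with rfl | rfl | rfl | rfl | rfl | rfl
    · rw [mt0, mem_eC]
      refine ⟨o, ho, ?_⟩
      simp only [Prod.mk.injEq, true_and, and_true]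
      omega
    · rw [mt1, mem_eC]
      refine ⟨nx φ o, hnl o ho, ?_⟩
      simp only [Prod.mk.injEq, true_and, and_true]
      omega
    · rw [mt2, mem_eC]
      refine ⟨o, ho, ?_⟩
      simp only [Prod.mk.injEq, true_and, and_true]
      omega
    · rw [mt3, mem_eC]
      refine ⟨o, ho, ?_⟩
      simp only [Prod.mk.injEq, true_and, and_true]
      omega
    · rw [mt4, mem_eC]
      refine ⟨o, ho, ?_⟩
      simp only [Prod.mk.injEq, true_and, and_true]
      omega
    · rw [mt5, mem_eC]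
      refine ⟨o, ho, ?_⟩
      simp only [Prod.mk.injEq, true_and, and_true]
      omega
  · intro a ha a' ha' e
    have ey : a.2 = a'.2 := congrArg Prod.fst e
    rw [mem_eA] at ha ha'
    obtain ⟨o, ho, ha⟩ := ha
    obtain ⟨o', ho', ha'⟩ := ha'
    have z := zz o
    have z' := zz o'
    have ss := zs o o'
    have ss' := zs' o o'
    rcases ha with rfl | rfl | rfl | rfl | rfl | rfl <;>
    rcases ha' with rfl | rfl | rfl | rfl | rfl | rfl <;>
    simp only at ey <;>
    first
    | (exfalso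
       clear z z'
       omega)
    | (have eo : o = o' := by
         clear z z'
         omega
       subst eo
       first
       | rfl
       | (exfalso
          simp only [mt0, mt1, mt3, mt4, Prod.mk.injEq] at e
          omega))
    | (have eo : o / 4 = o' / 4 := by
         clear z z'
         omega
       simp only [mt2, mt5, Prod.mk.injEq] at e
       first
       | (have eo' := rk_inj h3 ho ho' eo (ss e.2.1) e.2.2
          rw [eo'])
       | (have eo' := rk_inj h3 ho ho' eo (ss' e.2.1) e.2.2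
          rw [eo']))
  · intro a ha a' ha' ex e
    rw [mem_eA] at ha ha'
    obtain ⟨o, ho, ha⟩ := ha
    obtain ⟨o', ho', ha'⟩ := ha'
    have z := zz o
    have z' := zz o'
    have hn := zn o ho
    have hn' := zn o' ho'
    have hi := hnxi o ho o' ho'
    clear hnx h3 hnl hnxi zz zs zs' zn bmem
    rcases ha with rfl | rfl | rfl | rfl | rfl | rfl <;>
    rcases ha' with rfl | rfl | rfl | rfl | rfl | rfl <;>
    simp only at ex <;>
    simp only [mt0, mt1, mt2, mt3, mt4, mt5] at e <;>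
    first
    | (exfalso
       clear z z' hn hn' hi
       omega)
    | (have eo : nx φ o = nx φ o' := by
         clear z z' hn hn' hi
         omega
       have := hi eo
       subst this
       rfl)
    | (have eo : o = nx φ o' := by
         clear z z' hn hn' hi
         omega
       exfalso
       rw [← eo] at hn'
       omega)
    | (have eo : o' = nx φ o := by
         clear z z' hn hn' hi
         omega
       exfalso
       rw [← eo] at hn
       omega)
    | (have eo : o = o' := by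
         clear z z' hn hn' hi
         omega
       subst eo
       first
       | rfl
       | (exfalso; omega))

/-- the truth value of a class -/
def cv (φ : List (NV × NV × NV)) (τ : NV → Bool) (c : ℕ × NV) : Bool :=
  if c.1 = 0 then τ c.2 else
    let t := φ.getD (c.1 / 4 - 1) ((0, 0, false), (0, 0, false), (0, 0, false))
    !((τ t.1 && τ t.2.1) || (τ t.2.1 && τ t.2.2) || (τ t.1 && τ t.2.2))

theorem bool4 : ∀ a b c : Bool, ¬ (a = b ∧ b = c) →
    ¬ (b = c ∧ c = !((a && b) || (b && c) || (a && c))) ∧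
    ¬ (a = c ∧ c = !((a && b) || (b && c) || (a && c))) ∧
    ¬ (a = b ∧ b = !((a && b) || (b && c) || (a && c))) := by decide

theorem edg_of_nae {φ : List (NV × NV × NV)} (h : NAE φ) :
    ∃ δ, Edg (eA φ) (eB φ) (eC φ) δ := by
  obtain ⟨τ, hτ⟩ := h
  refine ⟨mt (fun o => cv φ τ (occ φ o)), edg_of ?_ ?_⟩
  · intro o ho
    have : occ φ (nx φ o) = occ φ o := nxtf_class ho
    simp only [this]
  · intro j hj
    have g : φ.getD j ((0, 0, false), (0, 0, false), (0, 0, false)) = φ[j] := by
      rw [List.getD_eq_getElem?_getD, List.getElem?_eq_getElem hj]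
      rfl
    have o0 : occ φ (4 * j + 0) = (0, φ[j].1) := by
      unfold occ
      rw [if_neg (by omega), if_pos (by omega), show (4 * j + 0) / 4 = j by omega, g]
    have o1 : occ φ (4 * j + 1) = (0, φ[j].2.1) := by
      unfold occ
      rw [if_neg (by omega), if_neg (by omega), if_pos (by omega),
        show (4 * j + 1) / 4 = j by omega, g]
    have o2 : occ φ (4 * j + 2) = (0, φ[j].2.2) := by
      unfold occ
      rw [if_neg (by omega), if_neg (by omega), if_neg (by omega),
        show (4 * j + 2) / 4 = j by omega, g]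
    have o3 : occ φ (4 * j + 3) = (4 * j + 3 + 1, (0, 0, false)) := by
      unfold occ
      rw [if_pos (by omega)]
    have hj3 : (4 * j + 3 + 1) / 4 - 1 = j := by omega
    have hh := hτ φ[j] (List.getElem_mem hj)
    have hb := bool4 _ _ _ hh
    intro r1 r2 r3 h1 h2 h3
    have v0 : cv φ τ (occ φ (4 * j + 0)) = τ φ[j].1 := by
      rw [o0]; rfl
    have v1 : cv φ τ (occ φ (4 * j + 1)) = τ φ[j].2.1 := by
      rw [o1]; rfl
    have v2 : cv φ τ (occ φ (4 * j + 2)) = τ φ[j].2.2 := by
      rw [o2]; rfl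
    have v3 : cv φ τ (occ φ (4 * j + 3)) = !((τ φ[j].1 && τ φ[j].2.1) ||
        (τ φ[j].2.1 && τ φ[j].2.2) || (τ φ[j].1 && τ φ[j].2.2)) := by
      rw [o3]
      unfold cv
      rw [if_neg (by simp only; omega)]
      simp only [hj3, g]
    have hr : (r1 = 0 ∧ r2 = 1 ∧ r3 = 2) ∨ (r1 = 1 ∧ r2 = 2 ∧ r3 = 3) ∨
      (r1 = 0 ∧ r2 = 2 ∧ r3 = 3) ∨ (r1 = 0 ∧ r2 = 1 ∧ r3 = 3) := by omega
    rcases hr with ⟨rfl, rfl, rfl⟩ | ⟨rfl, rfl, rfl⟩ | ⟨rfl, rfl, rfl⟩ | ⟨rfl, rfl, rfl⟩
    · rw [v0, v1, v2]; exact hh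
    · rw [v1, v2, v3]; exact hb.1
    · rw [v0, v2, v3]; exact hb.2.1
    · rw [v0, v1, v3]; exact hb.2.2

theorem red_correct {g : ℕ} (hg : 3 ≤ g) (φ : List (NV × NV × NV)) :
    NAE φ ↔ SegmentColouring g (red φ) := by
  unfold red
  rw [main (sys φ) hg, match_iff (sys φ)]
  constructor
  · exact edg_of_nae
  · rintro ⟨δ, hδ⟩
    exact nae_of hδ

end Pool.Agent.R552.Seg
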