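import Mathlib

/-!
# Segment graphs: chords, crossings, colourings
-/

namespace Pool.Agent.R552.Seg

/-- Two chords (given by their left and right endpoints) intersect: the endpoints interleave. -/
def Crosses (a b : ℕ × ℕ) : Prop :=
  (a.1 < b.1 ∧ b.1 < a.2 ∧ a.2 < b.2) ∨ (b.1 < a.1 ∧ a.1 < b.2 ∧ b.2 < a.2)

/-- A chord set: every chord has its left endpoint before its right endpoint, and all endpoints are
pairwise distinct. -/
def IsChordSet (C : List (ℕ × ℕ)) : Prop :=
  (∀ c ∈ C, c.1 < c.2) ∧ (C.map Prod.fst ++ C.map Prod.snd).Nodup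

/-- `C` is a `g`-segment graph: there are real numbers `e_1, ..., e_{g-1}` such that every chord
contains one of them in its interior. -/
def IsSegment (g : ℕ) (C : List (ℕ × ℕ)) : Prop :=
  ∃ e : Fin (g - 1) → ℝ, ∀ c ∈ C, ∃ i, (c.1 : ℝ) < e i ∧ e i < (c.2 : ℝ)

/-- The circle graph of `C` has a proper colouring with `k` colours. -/
def Colourable (C : List (ℕ × ℕ)) (k : ℕ) : Prop :=
  ∃ f : ℕ × ℕ → ℕ, (∀ c ∈ C, f c < k) ∧ ∀ a ∈ C, ∀ b ∈ C, Crosses a b → f a ≠ f b

/-- The colouring problem for `g`-segment graphs: the input is a `g`-segment chord set and a number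
`k` of colours. -/
def SegmentColouring (g : ℕ) (I : List (ℕ × ℕ) × ℕ) : Prop :=
  IsChordSet I.1 ∧ IsSegment g I.1 ∧ Colourable I.1 I.2

end Pool.Agent.R552.Seg
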