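import Pool.Agent.R552.Seg.Defs
import Pool.Agent.H671R2.OOF.NP

/-!
# Membership in NP
-/

namespace Pool.Agent.R552.Seg

open Pool.Agent.NPC Pool.Agent.NPC.R671 Pool.Agent.H671R2.Ord Pool.Agent.H671R2.OOF

/-- the list has no repetitions -/
def nodupB (l : List ℕ) : Bool :=
  (List.range l.length).all fun i => (List.range l.length).all fun j =>
    decide (i = j) || !decide (l.getD i 0 = l.getD j 0)

theorem getD_eq {l : List ℕ} {i : ℕ} (h : i < l.length) : l.getD i 0 = l[i] := by
  rw [List.getD_eq_getElem?_getD, List.getElem?_eq_getElem h]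
  rfl

theorem nodupB_iff (l : List ℕ) : nodupB l = true ↔ l.Nodup := by
  simp only [nodupB, List.all_eq_true, List.mem_range, Bool.or_eq_true, decide_eq_true_eq,
    Bool.not_eq_true', decide_eq_false_iff_not]
  constructor
  · intro h
    rw [List.nodup_iff_injective_get]
    intro i j hij
    have := h i i.isLt j j.isLt
    rw [getD_eq i.isLt, getD_eq j.isLt] at this
    rcases this with h1 | h1
    · exact Fin.ext h1
    · exact absurd hij h1
  · intro h i hi j hj
    rw [getD_eq hi, getD_eq hj]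
    by_cases hij : i = j
    · exact Or.inl hij
    · right
      intro he
      exact hij ((List.Nodup.getElem_inj_iff h).1 he)

/-- the crossing test -/
def crB (a b : ℕ × ℕ) : Bool :=
  (decide (a.1 < b.1) && (decide (b.1 < a.2) && decide (a.2 < b.2))) ||
    (decide (b.1 < a.1) && (decide (a.1 < b.2) && decide (b.2 < a.2)))

theorem crB_iff (a b : ℕ × ℕ) : crB a b = true ↔ Crosses a b := by
  simp only [crB, Crosses, Bool.or_eq_true, Bool.and_eq_true, decide_eq_true_eq]

/-- the check of the colours -/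
def colB (C : List (ℕ × ℕ)) (w : List ℕ) : Bool :=
  (List.range C.length).all fun i => (List.range C.length).all fun j =>
    !(crB (C.getD i (0, 0)) (C.getD j (0, 0))) || !decide (w.getD i 0 = w.getD j 0)

/-- the check of the chord set -/
def setB (C : List (ℕ × ℕ)) : Bool :=
  C.all (fun c => decide (c.1 < c.2)) && nodupB (C.map Prod.fst ++ C.map Prod.snd)

/-- the check of the segments -/
def segB (g : ℕ) (C : List (ℕ × ℕ)) (e : List ℕ) : Bool :=
  decide (e.length ≤ g - 1) && (C.all (fun c => e.any (fun t => decide (c.1 ≤ t) && decide (t < c.2))) &&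
    e.all (fun t => C.any (fun c => decide (t < c.2))))

/-- the verifier -/
def vf (g : ℕ) (x : (List (ℕ × ℕ) × ℕ) × (List ℕ × List ℕ)) : Bool :=
  setB x.1.1 && (segB g x.1.1 x.2.1 && ((decide (x.2.2.length = x.1.1.length) &&
    x.2.2.all (fun a => decide (a < x.1.2))) && colB x.1.1 x.2.2))

theorem setB_iff (C : List (ℕ × ℕ)) : setB C = true ↔ IsChordSet C := by
  simp only [setB, IsChordSet, Bool.and_eq_true, List.all_eq_true, decide_eq_true_eq, nodupB_iff]

theorem segB_imp {g : ℕ} {C : List (ℕ × ℕ)} {e : List ℕ} (h : segB g C e = true) :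
    IsSegment g C := by
  simp only [segB, Bool.and_eq_true, List.all_eq_true, decide_eq_true_eq, List.any_eq_true] at h
  obtain ⟨h1, h2, _⟩ := h
  refine ⟨fun i => (e.getD i 0 : ℝ) + 1 / 2, fun c hc => ?_⟩
  obtain ⟨t, ht, h3, h4⟩ := h2 c hc
  obtain ⟨i, hi, rfl⟩ := List.getElem_of_mem ht
  refine ⟨⟨i, by omega⟩, ?_⟩
  simp only [getD_eq hi]
  have h3' : (c.1 : ℝ) ≤ (e[i] : ℝ) := by exact_mod_cast h3
  have h4' : (e[i] : ℝ) + 1 ≤ (c.2 : ℝ) := by exact_mod_cast h4
  constructor <;> linarith

theorem seg_ex {g : ℕ} {C : List (ℕ × ℕ)} (h : IsSegment g C) : ∃ e : List ℕ, segB g C e = true := by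
  obtain ⟨e, he⟩ := h
  have key : ∀ c : ℕ × ℕ, ∀ i, (c.1 : ℝ) < e i → e i < (c.2 : ℝ) →
      c.1 ≤ ⌈e i⌉₊ - 1 ∧ ⌈e i⌉₊ - 1 < c.2 := by
    intro c i h1 h2
    have h3 : c.1 < ⌈e i⌉₊ := Nat.lt_ceil.2 h1
    have h4 : ⌈e i⌉₊ ≤ c.2 := Nat.ceil_le.2 h2.le
    omega
  refine ⟨(List.ofFn (fun i => ⌈e i⌉₊ - 1)).filter (fun t => C.any (fun c => decide (t < c.2))), ?_⟩
  simp only [segB, Bool.and_eq_true, List.all_eq_true, decide_eq_true_eq, List.any_eq_true,
    List.mem_filter, List.mem_ofFn]
  refine ⟨?_, ?_, ?_⟩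
  · refine (List.length_filter_le _ _).trans ?_
    rw [List.length_ofFn]
  · intro c hc
    obtain ⟨i, h1, h2⟩ := he c hc
    obtain ⟨h3, h4⟩ := key c i h1 h2
    exact ⟨⌈e i⌉₊ - 1, ⟨⟨i, rfl⟩, c, hc, h4⟩, h3, h4⟩
  · rintro t ⟨_, h⟩
    exact h

theorem getDp_eq {C : List (ℕ × ℕ)} {i : ℕ} (h : i < C.length) : C.getD i (0, 0) = C[i] := by
  rw [List.getD_eq_getElem?_getD, List.getElem?_eq_getElem h]
  rfl

theorem colB_iff {C : List (ℕ × ℕ)} {w : List ℕ} (hw : w.length = C.length) : colB C w = true ↔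
    ∀ i (hi : i < C.length) j (hj : j < C.length), Crosses C[i] C[j] → w[i] ≠ w[j] := by
  simp only [colB, List.all_eq_true, List.mem_range, Bool.or_eq_true, Bool.not_eq_true',
    decide_eq_false_iff_not, ← Bool.not_eq_true, crB_iff]
  constructor
  · intro h i hi j hj hc
    have := h i hi j hj
    rw [getDp_eq hi, getDp_eq hj, getD_eq (by omega), getD_eq (by omega)] at this
    rcases this with h1 | h1
    · exact absurd hc h1
    · simpa only [decide_eq_true_eq] using h1
  · intro h i hi j hj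
    rw [getDp_eq hi, getDp_eq hj, getD_eq (by omega), getD_eq (by omega)]
    by_cases hc : Crosses C[i] C[j]
    · exact Or.inr (by simpa only [decide_eq_true_eq] using h i hi j hj hc)
    · exact Or.inl hc

theorem sc_iff (g : ℕ) (I : List (ℕ × ℕ) × ℕ) :
    SegmentColouring g I ↔ ∃ w : List ℕ × List ℕ, vf g (I, w) = true := by
  obtain ⟨C, k⟩ := I
  constructor
  · rintro ⟨h1, h2, f, h3, h4⟩
    obtain ⟨e, he⟩ := seg_ex h2
    refine ⟨(e, C.map f), ?_⟩
    simp only [vf, Bool.and_eq_true, decide_eq_true_eq, List.all_eq_true, List.length_map, true_and,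
      List.mem_map]
    refine ⟨(setB_iff C).2 h1, he, ?_, ?_⟩
    · rintro a ⟨c, hc, rfl⟩
      exact h3 c hc
    · rw [colB_iff (by simp)]
      intro i hi j hj hc
      rw [List.getElem_map, List.getElem_map]
      exact h4 _ (List.getElem_mem hi) _ (List.getElem_mem hj) hc
  · rintro ⟨⟨e, w⟩, h⟩
    simp only [vf, Bool.and_eq_true, decide_eq_true_eq, List.all_eq_true] at h
    obtain ⟨h1, h2, ⟨h3, h4⟩, h5⟩ := h
    rw [setB_iff] at h1
    rw [colB_iff h3] at h5
    have hn : C.Nodup := by
      have := h1.2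
      rw [List.nodup_append] at this
      exact List.Nodup.of_map _ this.1
    have hidx : ∀ c ∈ C, C.idxOf c < C.length := fun c hc => List.idxOf_lt_length_of_mem hc
    refine ⟨h1, segB_imp h2, fun c => w.getD (C.idxOf c) 0, ?_, ?_⟩
    · intro c hc
      have := hidx c hc
      simp only [getD_eq (show C.idxOf c < w.length by omega)]
      exact h4 _ (List.getElem_mem _)
    · intro a ha b hb hab
      have h6 := hidx a ha
      have h7 := hidx b hb
      simp only [getD_eq (show C.idxOf a < w.length by omega),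
        getD_eq (show C.idxOf b < w.length by omega)]
      apply h5 _ h6 _ h7
      rw [List.getElem_idxOf, List.getElem_idxOf]
      exact hab

theorem crB_poly {α : Type} [TEnc α] {a b : α → ℕ × ℕ} (ha : Poly a) (hb : Poly b) :
    Poly (fun x => crB (a x) (b x)) := by
  unfold crB
  fun_prop

theorem nodupB_poly {α : Type} [TEnc α] {a : α → List ℕ} (ha : Poly a) :
    Poly (fun x => nodupB (a x)) := by
  have h : Poly nodupB := by
    unfold nodupB
    refine all2_poly (α := List ℕ) (m := fun x => x.length)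
      (UPoly.length (by fun_prop)) (F := fun x i j =>
        decide (i = j) || !decide (x.getD i 0 = x.getD j 0)) ?_
    fun_prop
  exact h.comp ha

attribute [local fun_prop] crB_poly nodupB_poly

theorem setB_poly {α : Type} [TEnc α] {a : α → List (ℕ × ℕ)} (ha : Poly a) :
    Poly (fun x => setB (a x)) := by
  have h : Poly setB := by
    unfold setB
    fun_prop
  exact h.comp ha

theorem segB_poly (g : ℕ) {α : Type} [TEnc α] {a : α → List (ℕ × ℕ)} {b : α → List ℕ}
    (ha : Poly a) (hb : Poly b) : Poly (fun x => segB g (a x) (b x)) := by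
  have h : Poly (fun x : List (ℕ × ℕ) × List ℕ => segB g x.1 x.2) := by
    unfold segB
    refine NPC.Poly.and ?_ (NPC.Poly.and ?_ ?_)
    · fun_prop
    · refine NPC.Poly.all (l := fun x : List (ℕ × ℕ) × List ℕ => x.1)
        (p := fun x c => x.2.any (fun t => decide (c.1 ≤ t) && decide (t < c.2))) (by fun_prop) ?_
      fun_prop
    · refine NPC.Poly.all (l := fun x : List (ℕ × ℕ) × List ℕ => x.2)
        (p := fun x t => x.1.any (fun c => decide (t < c.2))) (by fun_prop) ?_
      fun_prop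
  exact h.comp (ha.pair hb)

theorem colB_poly {α : Type} [TEnc α] {a : α → List (ℕ × ℕ)} {b : α → List ℕ}
    (ha : Poly a) (hb : Poly b) : Poly (fun x => colB (a x) (b x)) := by
  have h : Poly (fun x : List (ℕ × ℕ) × List ℕ => colB x.1 x.2) := by
    unfold colB
    refine all2_poly (α := List (ℕ × ℕ) × List ℕ) (m := fun x => x.1.length)
      (UPoly.length (by fun_prop)) (F := fun x i j =>
        !(crB (x.1.getD i (0, 0)) (x.1.getD j (0, 0))) || !decide (x.2.getD i 0 = x.2.getD j 0)) ?_
    fun_prop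
  exact h.comp (ha.pair hb)

theorem vf_poly (g : ℕ) : Poly (vf g) := by
  unfold vf
  refine NPC.Poly.and (setB_poly (by fun_prop)) (NPC.Poly.and (segB_poly g (by fun_prop) (by fun_prop))
    (NPC.Poly.and (NPC.Poly.and ?_ ?_) (colB_poly (by fun_prop) (by fun_prop))))
  · fun_prop
  · refine NPC.Poly.all (l := fun x : (List (ℕ × ℕ) × ℕ) × (List ℕ × List ℕ) => x.2.2)
      (p := fun x a => decide (a < x.1.2)) (by fun_prop) ?_
    fun_prop

/-- certificates are short -/
theorem vf_short {g : ℕ} {I : List (ℕ × ℕ) × ℕ} {w : List ℕ × List ℕ} (h : vf g (I, w) = true) :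
    sz w ≤ (2 * Polynomial.X ^ 2 + (2 * Polynomial.C g + 10) * Polynomial.X +
      (Polynomial.C g + 20) : Polynomial ℕ).eval (sz I) := by
  obtain ⟨C, k⟩ := I
  obtain ⟨e, w⟩ := w
  simp only [vf, segB, Bool.and_eq_true, decide_eq_true_eq, List.all_eq_true, List.any_eq_true] at h
  obtain ⟨_, ⟨h1, _, h2⟩, ⟨h3, h4⟩, _⟩ := h
  have s0 : sz (C, k) = sz C + sz k + 1 := sz_pair _ _
  have s1 : ∀ t ∈ e, sz t ≤ 2 * sz (C, k) := by
    intro t ht
    obtain ⟨c, hc, h5⟩ := h2 t ht
    have h6 := sz_nat_mono_le h5.le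
    have h7 : sz c < sz C := sz_le_of_mem hc
    have h8 : sz c = sz c.1 + sz c.2 + 1 := sz_pair _ _
    omega
  have s2 : ∀ a ∈ w, sz a ≤ 2 * sz (C, k) := by
    intro a ha
    have h6 := sz_nat_mono_le (h4 a ha).le
    omega
  have s3 := sz_le_length_mul e _ s1
  have s4 := sz_le_length_mul w _ s2
  have s5 : C.length < sz C := length_lt_sz C
  have s6 : sz (e, w) = sz e + sz w + 1 := sz_pair _ _
  simp only [Polynomial.eval_add, Polynomial.eval_mul, Polynomial.eval_pow, Polynomial.eval_X,
    Polynomial.eval_ofNat, Polynomial.eval_C]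
  have h1' : e.length ≤ g := by omega
  have h3' : w.length ≤ sz (C, k) := by omega
  rw [s6]
  generalize sz (C, k) = S at *
  have k1 : e.length * (2 * S + 1) ≤ g * (2 * S + 1) := Nat.mul_le_mul_right _ h1'
  have k2 : w.length * (2 * S + 1) ≤ S * (2 * S + 1) := Nat.mul_le_mul_right _ h3'
  nlinarith

/-- **The colouring problem for `g`-segment graphs is in `NP`.** -/
theorem seg_inNPP (g : ℕ) : InNPP (SegmentColouring g) := by
  refine inNPP_of (R := vf g) (vf_poly g) (2 * Polynomial.X ^ 2 + (2 * Polynomial.C g + 10) *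
    Polynomial.X + (Polynomial.C g + 20)) ?_
  intro I
  rw [sc_iff]
  exact exists_congr fun w => ⟨fun h => ⟨vf_short h, h⟩, fun h => h.2⟩

end Pool.Agent.R552.Seg
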