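import Pool.Agent.R552.Seg.Corr2
import Pool.Agent.R552.Seg.NP

/-!
# The colouring problem for `g`-segment graphs is NP-complete
-/

namespace Pool.Agent.R552.Seg

open Pool.Agent.NPC Pool.Agent.NPC.WC648 Pool.Agent.H648R3.WC Pool.Agent.NPC.R671

theorem occ_poly : Poly (fun x : List (NV × NV × NV) × ℕ => occ x.1 x.2) := by
  unfold occ
  have h2 : Poly (fun x : List (NV × NV × NV) × ℕ => x.2 / 4) :=
    NPC.Poly.div (by fun_prop) (NPC.Poly.const 4)
  have h3 : Poly (fun x : List (NV × NV × NV) × ℕ =>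
    x.1.getD (x.2 / 4) ((0, 0, false), (0, 0, false), (0, 0, false))) :=
    NPC.Poly.getD (by fun_prop) h2 (NPC.Poly.const _)
  have h1 : Poly (fun x : List (NV × NV × NV) × ℕ => x.2 % 4) :=
    NPC.Poly.mod (by fun_prop) (NPC.Poly.const 4)
  fun_prop

theorem occ_poly' {α : Type} [TEnc α] {a : α → List (NV × NV × NV)} {b : α → ℕ}
    (ha : Poly a) (hb : Poly b) : Poly (fun x => occ (a x) (b x)) := by
  have h := occ_poly.comp (ha.pair hb)
  exact h

theorem uN {α : Type} [TEnc α] {a : α → List (NV × NV × NV)} (ha : Poly a) :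
    UPoly (fun x => 4 * (a x).length) := UPoly.mul (UPoly.const 4) (UPoly.length ha)

theorem nx_poly {α : Type} [TEnc α] {f : α → List (NV × NV × NV)} {o : α → ℕ}
    (h : Poly f) (h' : Poly o) : Poly (fun x => nx (f x) (o x)) := by
  unfold nx nxtf
  have h1 : Poly (fun x => (List.range (4 * (f x).length)).filter
      (fun j => decide (o x < j) && decide (occ (f x) j = occ (f x) (o x)))) :=
    NPC.Poly.filter (l := fun x => List.range (4 * (f x).length))
      (p := fun x j => decide (o x < j) && decide (occ (f x) j = occ (f x) (o x))) (uN h).range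
      (NPC.Poly.and (by fun_prop) (NPC.Poly.dec_eq (occ_poly' (by fun_prop) (by fun_prop))
        (occ_poly' (by fun_prop) (by fun_prop))))
  have h2 : Poly (fun x => (List.range (4 * (f x).length)).filter
      (fun j => decide (occ (f x) j = occ (f x) (o x)))) :=
    NPC.Poly.filter (l := fun x => List.range (4 * (f x).length))
      (p := fun x j => decide (occ (f x) j = occ (f x) (o x))) (uN h).range
      (NPC.Poly.dec_eq (occ_poly' (by fun_prop) (by fun_prop))
        (occ_poly' (by fun_prop) (by fun_prop)))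
  exact NPC.Poly.optGetD (NPC.Poly.head? h1) (NPC.Poly.optGetD (NPC.Poly.head? h2)
    (NPC.Poly.const 0))

attribute [local irreducible] nx

theorem list6 {α β : Type} [TEnc α] [TEnc β] {a b c d e f : α → β} (ha : Poly a) (hb : Poly b)
    (hc : Poly c) (hd : Poly d) (he : Poly e) (hf : Poly f) :
    Poly (fun x => [a x, b x, c x, d x, e x, f x]) := by
  fun_prop

abbrev Fm : Type := List (NV × NV × NV)

theorem two_poly : Poly (fun x : Fm × ℕ => 2 * x.2) :=
  NPC.Poly.mul (NPC.Poly.const 2) (NPC.Poly.snd NPC.Poly.id)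
theorem twos_poly : Poly (fun x : Fm × ℕ => 2 * x.2 + 1) := NPC.Poly.add two_poly (NPC.Poly.const 1)
theorem four_poly : Poly (fun x : Fm × ℕ => 4 * x.2) :=
  NPC.Poly.mul (NPC.Poly.const 4) (NPC.Poly.snd NPC.Poly.id)
theorem fours_poly : Poly (fun x : Fm × ℕ => 4 * x.2 + 1) := NPC.Poly.add four_poly (NPC.Poly.const 1)
theorem div_poly (k : ℕ) : Poly (fun x : Fm × ℕ => 4 * (x.2 / 4) + k) :=
  NPC.Poly.add (NPC.Poly.mul (NPC.Poly.const 4) (NPC.Poly.div (NPC.Poly.snd NPC.Poly.id)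
    (NPC.Poly.const 4))) (NPC.Poly.const k)

theorem eA_poly : Poly eA := by
  unfold eA
  refine NPC.Poly.flatMap (l := fun φ : Fm => List.range (4 * φ.length))
    (F := fun φ o => [(2 * o, 4 * o), (2 * nx φ o, 4 * o + 1), (2 * o, 4 * (o / 4) + 2),
      (2 * o + 1, 4 * o), (2 * o + 1, 4 * o + 1), (2 * o + 1, 4 * (o / 4) + 3)])
      (uN NPC.Poly.id).range ?_
  have h3 : Poly (fun x : Fm × ℕ => 2 * nx x.1 x.2) :=
    NPC.Poly.mul (NPC.Poly.const 2) (nx_poly (NPC.Poly.fst NPC.Poly.id) (NPC.Poly.snd NPC.Poly.id))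
  exact list6 (two_poly.pair four_poly) (h3.pair fours_poly) (two_poly.pair (div_poly 2))
    (twos_poly.pair four_poly) (twos_poly.pair fours_poly) (twos_poly.pair (div_poly 3))

theorem eB_poly : Poly eB := by
  unfold eB
  refine NPC.Poly.flatMap (l := fun φ : Fm => List.range (4 * φ.length))
    (F := fun φ o => [(4 * o, 0, 0), (4 * o, 1, 0), (4 * o + 1, 2, 0), (4 * o + 1, 1, 0),
      (4 * (o / 4) + 2, 2 * (o % 4 / 2), o % 2), (4 * (o / 4) + 3, 2 * (o % 4 / 2), o % 2)])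
      (uN NPC.Poly.id).range ?_
  have h1 : Poly (fun x : Fm × ℕ => x.2 % 2) :=
    NPC.Poly.mod (NPC.Poly.snd NPC.Poly.id) (NPC.Poly.const 2)
  have h2 : Poly (fun x : Fm × ℕ => 2 * (x.2 % 4 / 2)) :=
    NPC.Poly.mul (NPC.Poly.const 2) (NPC.Poly.div (NPC.Poly.mod (NPC.Poly.snd NPC.Poly.id)
      (NPC.Poly.const 4)) (NPC.Poly.const 2))
  exact list6 (four_poly.pair (NPC.Poly.const (0, 0))) (four_poly.pair (NPC.Poly.const (1, 0)))
    (fours_poly.pair (NPC.Poly.const (2, 0))) (fours_poly.pair (NPC.Poly.const (1, 0)))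
    ((div_poly 2).pair (h2.pair h1)) ((div_poly 3).pair (h2.pair h1))

theorem eC_poly : Poly eC := by
  unfold eC
  refine NPC.Poly.flatMap (l := fun φ : Fm => List.range (4 * φ.length))
    (F := fun _ o => [(2 * o, 0), (2 * o, 1), (2 * o, 2), (2 * o + 1, 0), (2 * o + 1, 1),
      (2 * o + 1, 2)]) (uN NPC.Poly.id).range ?_
  exact list6 (two_poly.pair (NPC.Poly.const 0)) (two_poly.pair (NPC.Poly.const 1))
    (two_poly.pair (NPC.Poly.const 2)) (twos_poly.pair (NPC.Poly.const 0))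
    (twos_poly.pair (NPC.Poly.const 1)) (twos_poly.pair (NPC.Poly.const 2))

theorem enc_poly {α : Type} [TEnc α] {M a b c d e : α → ℕ} (hM : Poly M) (ha : Poly a)
    (hb : Poly b) (hc : Poly c) (hd : Poly d) (he : Poly e) :
    Poly (fun x => enc (M x) (a x) (b x) (c x) (d x) (e x)) := by
  unfold enc
  exact (((((((ha.mul hM).add hb).mul hM).add hc).mul hM).add hd).mul hM).add he

theorem ch_poly {α : Type} [TEnc α] {M : α → ℕ} {l : α → CL} (hM : Poly M) (hl : Poly l) :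
    Poly (fun x => ch (M x) (l x)) := by
  unfold ch
  have h1 : Poly (fun x => (l x).1) := NPC.Poly.fst hl
  have h2 : Poly (fun x => (l x).2.1) := NPC.Poly.fst (NPC.Poly.snd hl)
  have h3 : Poly (fun x => (l x).2.2.1) := NPC.Poly.fst (NPC.Poly.snd (NPC.Poly.snd hl))
  have h4 : Poly (fun x => (l x).2.2.2) := NPC.Poly.snd (NPC.Poly.snd (NPC.Poly.snd hl))
  have h5 : Poly (fun x => 2 * (l x).2.2.2) := NPC.Poly.mul (NPC.Poly.const 2) h4
  have h6 : Poly (fun x => 2 * (l x).2.2.2 + 1) := NPC.Poly.add h5 (NPC.Poly.const 1)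
  have k : ∀ n : ℕ, Poly (fun _ : α => n) := fun n => NPC.Poly.const n
  refine NPC.Poly.ite (NPC.Poly.dec_eq h1 (k 0)) ((enc_poly hM (k 0) h2 (k 1) h3 (k 0)).pair
    (enc_poly hM (k 2) h3 (k 0) h2 (k 0))) ?_
  refine NPC.Poly.ite (NPC.Poly.dec_eq h1 (k 1)) ((enc_poly hM (k 2) h2 (k 1) h3 h4).pair
    (enc_poly hM (k 4) h3 (k 0) h2 h6)) ?_
  refine NPC.Poly.ite (NPC.Poly.dec_eq h1 (k 2)) ((enc_poly hM (k 0) h2 (k 0) h3 (k 1)).pair
    (enc_poly hM (k 4) h3 (k 1) h2 (k 0))) ?_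
  refine NPC.Poly.ite (NPC.Poly.dec_eq h1 (k 3)) ((enc_poly hM (k 0) h2 (k 1) h3 (k 1)).pair
    (enc_poly hM (k 1) h2 h3 (k 0) (k 0))) ?_
  refine NPC.Poly.ite (NPC.Poly.dec_eq h1 (k 4)) ((enc_poly hM (k 3) h3 h2 h4 (k 0)).pair
    (enc_poly hM (k 4) h3 (k 0) h2 h5)) ?_
  exact (enc_poly hM (k 0) h2 (k 0) h3 (k 0)).pair (enc_poly hM (k 5) h2 h3 (k 0) (k 0))

theorem labs_poly {α : Type} [TEnc α] {A : α → List (ℕ × ℕ)} {B : α → List (ℕ × ℕ × ℕ)}
    {C : α → List (ℕ × ℕ)} (hA : Poly A) (hB : Poly B) (hC : Poly C) :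
    Poly (fun x => labs (A x) (B x) (C x)) := by
  unfold labs
  fun_prop

theorem red_poly : Poly red := by
  unfold red chords
  have hl : Poly (fun φ : Fm => φ.length) := NPC.Poly.length NPC.Poly.id
  have h4 : Poly (fun φ : Fm => 4 * φ.length) := NPC.Poly.mul (NPC.Poly.const 4) hl
  refine NPC.Poly.pair ?_ (NPC.Poly.mul (NPC.Poly.const 6) h4)
  refine NPC.Poly.map (l := fun φ : Fm => labs (eA φ) (eB φ) (eC φ))
    (F := fun φ l => ch (4 * (4 * φ.length) + 4) l)
    (labs_poly eA_poly eB_poly eC_poly) ?_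
  have h5 : Poly (fun φ : Fm => 4 * (4 * φ.length) + 4) :=
    NPC.Poly.add (NPC.Poly.mul (NPC.Poly.const 4) h4) (NPC.Poly.const 4)
  have h6 : Poly (fun x : Fm × CL => 4 * (4 * x.1.length) + 4) := by
    have := h5.comp (NPC.Poly.fst (NPC.Poly.id (α := Fm × CL)))
    exact this
  exact ch_poly h6 (NPC.Poly.snd NPC.Poly.id)

theorem seg_npHard {g : ℕ} (hg : 3 ≤ g) : NPHardP (SegmentColouring g) :=
  (hardI_NAE.trans red_poly (red_correct hg)).toNPHardP

end Pool.Agent.R552.Seg
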