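import Pool.Agent.R552.Seg.Core

/-!
# Colourings of the chord set are matchings
-/

namespace Pool.Agent.R552.Seg

/-- The edges can be matched to triples: `fA, fB, fC` number the edges of the three kinds, and edges
with the same number fit together. -/
def Match (n : ℕ) (A : List (ℕ × ℕ)) (B : List (ℕ × ℕ × ℕ)) (C : List (ℕ × ℕ)) : Prop :=
  ∃ (fA : ℕ × ℕ → ℕ) (fB : ℕ × ℕ × ℕ → ℕ) (fC : ℕ × ℕ → ℕ),
    ((∀ a ∈ A, fA a < n) ∧ (∀ b ∈ B, fB b < n) ∧ (∀ c ∈ C, fC c < n)) ∧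
    ((∀ a ∈ A, ∀ a' ∈ A, fA a = fA a' → a = a') ∧ (∀ b ∈ B, ∀ b' ∈ B, fB b = fB b' → b = b') ∧
      (∀ c ∈ C, ∀ c' ∈ C, fC c = fC c' → c = c')) ∧
    ((∀ a ∈ A, ∀ c ∈ C, fA a = fC c → a.1 = c.1) ∧ (∀ a ∈ A, ∀ b ∈ B, fA a = fB b → a.2 = b.1) ∧
      (∀ b ∈ B, ∀ c ∈ C, fB b = fC c → b.2.1 = c.2))

theorem surj_of {α : Type} [DecidableEq α] {S : Finset α} {f : α → ℕ} {n : ℕ}
    (hf : ∀ s ∈ S, ∀ s' ∈ S, f s = f s' → s = s') (hfn : ∀ s ∈ S, f s < n) (hS : S.card = n) :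
    ∀ k < n, ∃ s ∈ S, f s = k := by
  have imS : S.image f = Finset.range n := by
    apply Finset.eq_of_subset_of_card_le
    · intro k hk
      obtain ⟨s, hs, rfl⟩ := Finset.mem_image.1 hk
      exact Finset.mem_range.2 (hfn s hs)
    · rw [Finset.card_image_of_injOn (fun s hs s' hs' h => hf s hs s' hs' h), hS, Finset.card_range]
  intro k hk
  have : k ∈ S.image f := by rw [imS]; exact Finset.mem_range.2 hk
  obtain ⟨s, hs, h⟩ := Finset.mem_image.1 this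
  exact ⟨s, hs, h⟩

section lems

variable {M : ℕ}

theorem ch0 (x y i : ℕ) : ch M (0, x, y, i) = (enc M 0 x 1 y 0, enc M 2 y 0 x 0) := rfl
theorem ch1 (y z i : ℕ) : ch M (1, y, z, i) = (enc M 2 y 1 z i, enc M 4 z 0 y (2 * i + 1)) := rfl
theorem ch2 (x z i : ℕ) : ch M (2, x, z, i) = (enc M 0 x 0 z 1, enc M 4 z 1 x 0) := rfl
theorem ch3 (x y i : ℕ) : ch M (3, x, y, i) = (enc M 0 x 1 y 1, enc M 1 x y 0 0) := rfl
theorem ch4 (y z i : ℕ) : ch M (4, y, z, i) = (enc M 3 z y i 0, enc M 4 z 0 y (2 * i)) := rfl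
theorem ch5 (x z i : ℕ) : ch M (5, x, z, i) = (enc M 0 x 0 z 0, enc M 5 x z 0 0) := rfl

/-- antichain `sA` -/
theorem cr33 (hM : 2 ≤ M) {x y x' y' : ℕ} (hx : x < M) (hy : y < M) (hx' : x' < M) (hy' : y' < M)
    (hne : ¬ (x = x' ∧ y = y')) : Crosses (ch M (3, x, y, 0)) (ch M (3, x', y', 0)) := by
  unfold Crosses
  simp only [ch3]
  rw [enc_lt, enc_lt, enc_lt, enc_lt, enc_lt, enc_lt] <;> omega

theorem cr44 (hM : 2 ≤ M) {y z i y' z' i' : ℕ} (hy : y < M) (hz : z < M) (hi : 2 * i + 1 < M)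
    (hy' : y' < M) (hz' : z' < M) (hi' : 2 * i' + 1 < M)
    (hne : ¬ (y = y' ∧ z = z' ∧ i = i')) : Crosses (ch M (4, y, z, i)) (ch M (4, y', z', i')) := by
  unfold Crosses
  simp only [ch4]
  rw [enc_lt, enc_lt, enc_lt, enc_lt, enc_lt, enc_lt] <;> omega

theorem cr55 (hM : 2 ≤ M) {x y x' y' : ℕ} (hx : x < M) (hy : y < M) (hx' : x' < M) (hy' : y' < M)
    (hne : ¬ (x = x' ∧ y = y')) : Crosses (ch M (5, x, y, 0)) (ch M (5, x', y', 0)) := by
  unfold Crosses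
  simp only [ch5]
  rw [enc_lt, enc_lt, enc_lt, enc_lt, enc_lt, enc_lt] <;> omega

/-- `sC` against `sA` -/
theorem cr53 (hM : 2 ≤ M) {x z x' y : ℕ} (hx : x < M) (hz : z < M) (hx' : x' < M) (hy : y < M)
    (h : x' < x) : Crosses (ch M (5, x, z, 0)) (ch M (3, x', y, 0)) := by
  unfold Crosses
  simp only [ch5, ch3]
  rw [enc_lt, enc_lt, enc_lt, enc_lt, enc_lt, enc_lt] <;> omega

/-- `sC` against `c` -/
theorem cr52 (hM : 2 ≤ M) {x z x' z' : ℕ} (hx : x < M) (hz : z < M) (hx' : x' < M) (hz' : z' < M)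
    (h : x' < x) : Crosses (ch M (5, x, z, 0)) (ch M (2, x', z', 0)) := by
  unfold Crosses
  simp only [ch5, ch2]
  rw [enc_lt, enc_lt, enc_lt, enc_lt, enc_lt, enc_lt] <;> omega

/-- `sA` against `c` -/
theorem cr32 (hM : 2 ≤ M) {x y x' z' : ℕ} (hx : x < M) (hy : y < M) (hx' : x' < M) (hz' : z' < M)
    (h : x < x') : Crosses (ch M (3, x, y, 0)) (ch M (2, x', z', 0)) := by
  unfold Crosses
  simp only [ch3, ch2]
  rw [enc_lt, enc_lt, enc_lt, enc_lt, enc_lt, enc_lt] <;> omega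

/-- `c`s with the same `x` -/
theorem cr22 (hM : 2 ≤ M) {x z z' : ℕ} (hx : x < M) (hz : z < M) (hz' : z' < M)
    (h : z ≠ z') : Crosses (ch M (2, x, z, 0)) (ch M (2, x, z', 0)) := by
  unfold Crosses
  simp only [ch2]
  rw [enc_lt, enc_lt, enc_lt, enc_lt, enc_lt, enc_lt] <;> omega

/-- `sC` against `a` -/
theorem cr50 (hM : 2 ≤ M) {x z x' y' : ℕ} (hx : x < M) (hz : z < M) (hx' : x' < M) (hy' : y' < M)
    (h : x' < x) : Crosses (ch M (5, x, z, 0)) (ch M (0, x', y', 0)) := by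
  unfold Crosses
  simp only [ch5, ch0]
  rw [enc_lt, enc_lt, enc_lt, enc_lt, enc_lt, enc_lt] <;> omega

/-- `sA` against `a` -/
theorem cr30 (hM : 2 ≤ M) {x y x' y' : ℕ} (hx : x < M) (hy : y < M) (hx' : x' < M) (hy' : y' < M)
    (h : x < x') : Crosses (ch M (3, x, y, 0)) (ch M (0, x', y', 0)) := by
  unfold Crosses
  simp only [ch3, ch0]
  rw [enc_lt, enc_lt, enc_lt, enc_lt, enc_lt, enc_lt] <;> omega

/-- `a`s with the same `x` -/
theorem cr00 (hM : 2 ≤ M) {x y y' : ℕ} (hx : x < M) (hy : y < M) (hy' : y' < M)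
    (h : y ≠ y') : Crosses (ch M (0, x, y, 0)) (ch M (0, x, y', 0)) := by
  unfold Crosses
  simp only [ch0]
  rw [enc_lt, enc_lt, enc_lt, enc_lt, enc_lt, enc_lt] <;> omega

/-- `sB` against `c` -/
theorem cr42 (hM : 2 ≤ M) {y z i x' z' : ℕ} (hy : y < M) (hz : z < M) (hi : 2 * i + 1 < M)
    (hx' : x' < M) (hz' : z' < M) (h : z' < z) :
    Crosses (ch M (4, y, z, i)) (ch M (2, x', z', 0)) := by
  unfold Crosses
  simp only [ch4, ch2]
  rw [enc_lt, enc_lt, enc_lt, enc_lt, enc_lt, enc_lt] <;> omega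

/-- `sB` against `b` -/
theorem cr41 (hM : 2 ≤ M) {y z i y' z' i' : ℕ} (hy : y < M) (hz : z < M) (hi : 2 * i + 1 < M)
    (hy' : y' < M) (hz' : z' < M) (hi' : 2 * i' + 1 < M) (h : z' < z) :
    Crosses (ch M (4, y, z, i)) (ch M (1, y', z', i')) := by
  unfold Crosses
  simp only [ch4, ch1]
  rw [enc_lt, enc_lt, enc_lt, enc_lt, enc_lt, enc_lt] <;> omega

/-- `b` against `c` -/
theorem cr12 (hM : 2 ≤ M) {y z i x' z' : ℕ} (hy : y < M) (hz : z < M) (hi : 2 * i + 1 < M)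
    (hx' : x' < M) (hz' : z' < M) (h : z' < z) :
    Crosses (ch M (1, y, z, i)) (ch M (2, x', z', 0)) := by
  unfold Crosses
  simp only [ch1, ch2]
  rw [enc_lt, enc_lt, enc_lt, enc_lt, enc_lt, enc_lt] <;> omega

/-- `b`s with the same `z` -/
theorem cr11 (hM : 2 ≤ M) {y z i y' i' : ℕ} (hy : y < M) (hz : z < M) (hi : 2 * i + 1 < M)
    (hy' : y' < M) (hi' : 2 * i' + 1 < M) (h : ¬ (y = y' ∧ i = i')) :
    Crosses (ch M (1, y, z, i)) (ch M (1, y', z, i')) := by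
  unfold Crosses
  simp only [ch1]
  rw [enc_lt, enc_lt, enc_lt, enc_lt, enc_lt, enc_lt] <;> omega

/-- `a` against `b` -/
theorem cr01 (hM : 2 ≤ M) {x y y' z' i' : ℕ} (hx : x < M) (hy : y < M)
    (hy' : y' < M) (hz' : z' < M) (hi' : 2 * i' + 1 < M) (h : y' < y) :
    Crosses (ch M (0, x, y, 0)) (ch M (1, y', z', i')) := by
  unfold Crosses
  simp only [ch0, ch1]
  rw [enc_lt, enc_lt, enc_lt, enc_lt, enc_lt, enc_lt] <;> omega

end lems

section

variable {M n : ℕ} {A : List (ℕ × ℕ)} {B : List (ℕ × ℕ × ℕ)} {C : List (ℕ × ℕ)}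

theorem mem0 {a : ℕ × ℕ} (ha : a ∈ A) : (0, a.1, a.2, 0) ∈ labs A B C := by
  simp only [labs, List.mem_append, List.mem_map]
  exact Or.inl ⟨a, ha, rfl⟩
theorem mem1 {b : ℕ × ℕ × ℕ} (hb : b ∈ B) : (1, b.1, b.2.1, b.2.2) ∈ labs A B C := by
  simp only [labs, List.mem_append, List.mem_map]
  exact Or.inr (Or.inl ⟨b, hb, rfl⟩)
theorem mem2 {c : ℕ × ℕ} (hc : c ∈ C) : (2, c.1, c.2, 0) ∈ labs A B C := by
  simp only [labs, List.mem_append, List.mem_map]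
  exact Or.inr (Or.inr (Or.inl ⟨c, hc, rfl⟩))
theorem mem3 {a : ℕ × ℕ} (ha : a ∈ A) : (3, a.1, a.2, 0) ∈ labs A B C := by
  simp only [labs, List.mem_append, List.mem_map]
  exact Or.inr (Or.inr (Or.inr (Or.inl ⟨a, ha, rfl⟩)))
theorem mem4 {b : ℕ × ℕ × ℕ} (hb : b ∈ B) : (4, b.1, b.2.1, b.2.2) ∈ labs A B C := by
  simp only [labs, List.mem_append, List.mem_map]
  exact Or.inr (Or.inr (Or.inr (Or.inr (Or.inl ⟨b, hb, rfl⟩))))
theorem mem5 {c : ℕ × ℕ} (hc : c ∈ C) : (5, c.1, c.2, 0) ∈ labs A B C := by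
  simp only [labs, List.mem_append, List.mem_map]
  exact Or.inr (Or.inr (Or.inr (Or.inr (Or.inr ⟨c, hc, rfl⟩))))

theorem memch {l : CL} (h : l ∈ labs A B C) : ch M l ∈ chords M A B C := List.mem_map_of_mem h

theorem sound (h : Sys M n A B C) (f : ℕ × ℕ → ℕ) (hf : ∀ c ∈ chords M A B C, f c < n)
    (hx : ∀ a ∈ chords M A B C, ∀ b ∈ chords M A B C, Crosses a b → f a ≠ f b) :
    Match n A B C := by
  classical
  have hM := h.M2
  have hA := h.Ab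
  have hB := h.Bb
  have hC := h.Cb
  have cA : A.toFinset.card = n := by rw [List.toFinset_card_of_nodup h.An, h.Al]
  have cB : B.toFinset.card = n := by rw [List.toFinset_card_of_nodup h.Bn, h.Bl]
  have cC : C.toFinset.card = n := by rw [List.toFinset_card_of_nodup h.Cn, h.Cl]
  have sx : ∑ c ∈ C.toFinset, c.1 = ∑ a ∈ A.toFinset, a.1 := by
    rw [List.sum_toFinset _ h.Cn, List.sum_toFinset _ h.An]
    exact h.sx.symm
  have sy : ∑ a ∈ A.toFinset, a.2 = ∑ b ∈ B.toFinset, b.1 := by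
    rw [List.sum_toFinset _ h.Bn, List.sum_toFinset _ h.An]
    exact h.sy
  have sz : ∑ b ∈ B.toFinset, b.2.1 = ∑ c ∈ C.toFinset, c.2 := by
    rw [List.sum_toFinset _ h.Bn, List.sum_toFinset _ h.Cn]
    exact h.sz
  -- the colours
  have key : ∀ l ∈ labs A B C, ∀ l' ∈ labs A B C, f (ch M l) = f (ch M l') →
      ¬ Crosses (ch M l) (ch M l') := fun l hl l' hl' e hc => hx _ (memch hl) _ (memch hl') hc e
  have lt : ∀ l ∈ labs A B C, f (ch M l) < n := fun l hl => hf _ (memch hl)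
  have i3 : ∀ a ∈ A.toFinset, ∀ a' ∈ A.toFinset,
      f (ch M (3, a.1, a.2, 0)) = f (ch M (3, a'.1, a'.2, 0)) → a = a' := by
    intro a ha a' ha' e
    rw [List.mem_toFinset] at ha ha'
    by_contra hne
    refine key _ (mem3 ha) _ (mem3 ha') e (cr33 hM (hA a ha).1 (hA a ha).2 (hA a' ha').1
      (hA a' ha').2 ?_)
    rintro ⟨h1, h2⟩
    exact hne (Prod.ext h1 h2)
  have i4 : ∀ a ∈ B.toFinset, ∀ a' ∈ B.toFinset,
      f (ch M (4, a.1, a.2.1, a.2.2)) = f (ch M (4, a'.1, a'.2.1, a'.2.2)) → a = a' := by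
    intro a ha a' ha' e
    rw [List.mem_toFinset] at ha ha'
    by_contra hne
    refine key _ (mem4 ha) _ (mem4 ha') e (cr44 hM (hB a ha).1 (hB a ha).2.1 (hB a ha).2.2
      (hB a' ha').1 (hB a' ha').2.1 (hB a' ha').2.2 ?_)
    rintro ⟨h1, h2, h3⟩
    exact hne (Prod.ext h1 (Prod.ext h2 h3))
  have i5 : ∀ a ∈ C.toFinset, ∀ a' ∈ C.toFinset,
      f (ch M (5, a.1, a.2, 0)) = f (ch M (5, a'.1, a'.2, 0)) → a = a' := by
    intro a ha a' ha' e
    rw [List.mem_toFinset] at ha ha'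
    by_contra hne
    refine key _ (mem5 ha) _ (mem5 ha') e (cr55 hM (hC a ha).1 (hC a ha).2 (hC a' ha').1
      (hC a' ha').2 ?_)
    rintro ⟨h1, h2⟩
    exact hne (Prod.ext h1 h2)
  have l3 : ∀ a ∈ A.toFinset, f (ch M (3, a.1, a.2, 0)) < n := fun a ha =>
    lt _ (mem3 (List.mem_toFinset.1 ha))
  have l4 : ∀ b ∈ B.toFinset, f (ch M (4, b.1, b.2.1, b.2.2)) < n := fun a ha =>
    lt _ (mem4 (List.mem_toFinset.1 ha))
  have l5 : ∀ a ∈ C.toFinset, f (ch M (5, a.1, a.2, 0)) < n := fun a ha =>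
    lt _ (mem5 (List.mem_toFinset.1 ha))
  -- step 1
  have e1 := (match_eq (w := Prod.fst) (w' := Prod.fst) i5 i3 l5 l3 cC cA (by
    intro c hc a ha e
    rw [List.mem_toFinset] at hc ha
    by_contra hlt
    exact key _ (mem5 hc) _ (mem3 ha) e (cr53 hM (hC c hc).1 (hC c hc).2 (hA a ha).1 (hA a ha).2
      (not_le.1 hlt))) sx).2
  have s5 := surj_of i5 l5 cC
  have s3 := surj_of i3 l3 cA
  -- the chord of colour `k` of kind `2` and `0` have the right `x`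
  have x2 : ∀ k < n, ∃ x, (∀ c ∈ C, f (ch M (2, c.1, c.2, 0)) = k → c.1 = x) ∧
      (∀ a ∈ A, f (ch M (0, a.1, a.2, 0)) = k → a.1 = x) := by
    intro k hk
    obtain ⟨c0, hc0, e5⟩ := s5 k hk
    obtain ⟨a0, ha0, e3⟩ := s3 k hk
    have ex := e1 c0 hc0 a0 ha0 (e5.trans e3.symm)
    rw [List.mem_toFinset] at hc0 ha0
    refine ⟨c0.1, ?_, ?_⟩
    · intro c hc e
      apply le_antisymm
      · rw [ex]
        by_contra hlt
        exact key _ (mem3 ha0) _ (mem2 hc) (e3.trans e.symm) (cr32 hM (hA a0 ha0).1 (hA a0 ha0).2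
          (hC c hc).1 (hC c hc).2 (not_le.1 hlt))
      · by_contra hlt
        exact key _ (mem5 hc0) _ (mem2 hc) (e5.trans e.symm) (cr52 hM (hC c0 hc0).1 (hC c0 hc0).2
          (hC c hc).1 (hC c hc).2 (not_le.1 hlt))
    · intro a ha e
      apply le_antisymm
      · rw [ex]
        by_contra hlt
        exact key _ (mem3 ha0) _ (mem0 ha) (e3.trans e.symm) (cr30 hM (hA a0 ha0).1 (hA a0 ha0).2
          (hA a ha).1 (hA a ha).2 (not_le.1 hlt))
      · by_contra hlt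
        exact key _ (mem5 hc0) _ (mem0 ha) (e5.trans e.symm) (cr50 hM (hC c0 hc0).1 (hC c0 hc0).2
          (hA a ha).1 (hA a ha).2 (not_le.1 hlt))
  have i2 : ∀ c ∈ C.toFinset, ∀ c' ∈ C.toFinset,
      f (ch M (2, c.1, c.2, 0)) = f (ch M (2, c'.1, c'.2, 0)) → c = c' := by
    intro c hc c' hc' e
    rw [List.mem_toFinset] at hc hc'
    obtain ⟨x, h1, _⟩ := x2 _ (lt _ (mem2 hc))
    have hxx : c.1 = c'.1 := (h1 c hc rfl).trans (h1 c' hc' e.symm).symm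
    by_contra hne
    have hzz : c.2 ≠ c'.2 := fun hz => hne (Prod.ext hxx hz)
    have := cr22 hM (hC c hc).1 (hC c hc).2 (hC c' hc').2 hzz
    refine key _ (mem2 hc) _ (mem2 hc') e ?_
    rw [← hxx]
    exact this
  have i0 : ∀ c ∈ A.toFinset, ∀ c' ∈ A.toFinset,
      f (ch M (0, c.1, c.2, 0)) = f (ch M (0, c'.1, c'.2, 0)) → c = c' := by
    intro c hc c' hc' e
    rw [List.mem_toFinset] at hc hc'
    obtain ⟨x, _, h1⟩ := x2 _ (lt _ (mem0 hc))
    have hxx : c.1 = c'.1 := (h1 c hc rfl).trans (h1 c' hc' e.symm).symm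
    by_contra hne
    have hzz : c.2 ≠ c'.2 := fun hz => hne (Prod.ext hxx hz)
    have := cr00 hM (hA c hc).1 (hA c hc).2 (hA c' hc').2 hzz
    refine key _ (mem0 hc) _ (mem0 hc') e ?_
    rw [← hxx]
    exact this
  have l2 : ∀ a ∈ C.toFinset, f (ch M (2, a.1, a.2, 0)) < n := fun a ha =>
    lt _ (mem2 (List.mem_toFinset.1 ha))
  have l0 : ∀ a ∈ A.toFinset, f (ch M (0, a.1, a.2, 0)) < n := fun a ha =>
    lt _ (mem0 (List.mem_toFinset.1 ha))
  -- step 2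
  have e2 := (match_eq (w := fun b : ℕ × ℕ × ℕ => b.2.1) (w' := Prod.snd) i4 i2 l4 l2 cB cC (by
    intro b hb c hc e
    rw [List.mem_toFinset] at hc hb
    by_contra hlt
    exact key _ (mem4 hb) _ (mem2 hc) e (cr42 hM (hB b hb).1 (hB b hb).2.1 (hB b hb).2.2
      (hC c hc).1 (hC c hc).2 (not_le.1 hlt))) sz).2
  have s4 := surj_of i4 l4 cB
  have s2 := surj_of i2 l2 cC
  have z1 : ∀ k < n, ∃ z, (∀ b ∈ B, f (ch M (1, b.1, b.2.1, b.2.2)) = k → b.2.1 = z) ∧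
      (∀ c ∈ C, f (ch M (2, c.1, c.2, 0)) = k → c.2 = z) := by
    intro k hk
    obtain ⟨b0, hb0, e4⟩ := s4 k hk
    obtain ⟨c0, hc0, e5⟩ := s2 k hk
    have ez := e2 b0 hb0 c0 hc0 (e4.trans e5.symm)
    refine ⟨b0.2.1, ?_, ?_⟩
    · rw [List.mem_toFinset] at hc0 hb0
      intro b hb e
      apply le_antisymm
      · rw [ez]
        by_contra hlt
        exact key _ (mem1 hb) _ (mem2 hc0) (e.trans e5.symm) (cr12 hM (hB b hb).1 (hB b hb).2.1
          (hB b hb).2.2 (hC c0 hc0).1 (hC c0 hc0).2 (not_le.1 hlt))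
      · by_contra hlt
        exact key _ (mem4 hb0) _ (mem1 hb) (e4.trans e.symm) (cr41 hM (hB b0 hb0).1 (hB b0 hb0).2.1
          (hB b0 hb0).2.2 (hB b hb).1 (hB b hb).2.1 (hB b hb).2.2 (not_le.1 hlt))
    · intro c hc e
      have := i2 c (List.mem_toFinset.2 hc) c0 hc0 (e.trans e5.symm)
      rw [this]
      exact ez.symm
  have i1 : ∀ c ∈ B.toFinset, ∀ c' ∈ B.toFinset,
      f (ch M (1, c.1, c.2.1, c.2.2)) = f (ch M (1, c'.1, c'.2.1, c'.2.2)) → c = c' := by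
    intro c hc c' hc' e
    rw [List.mem_toFinset] at hc hc'
    obtain ⟨x, h1, _⟩ := z1 _ (lt _ (mem1 hc))
    have hxx : c.2.1 = c'.2.1 := (h1 c hc rfl).trans (h1 c' hc' e.symm).symm
    by_contra hne
    have hzz : ¬ (c.1 = c'.1 ∧ c.2.2 = c'.2.2) := fun hz => hne (Prod.ext hz.1 (Prod.ext hxx hz.2))
    have := cr11 hM (hB c hc).1 (hB c hc).2.1 (hB c hc).2.2 (hB c' hc').1 (hB c' hc').2.2 hzz
    refine key _ (mem1 hc) _ (mem1 hc') e ?_
    rw [← hxx]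
    exact this
  have l1 : ∀ b ∈ B.toFinset, f (ch M (1, b.1, b.2.1, b.2.2)) < n := fun a ha =>
    lt _ (mem1 (List.mem_toFinset.1 ha))
  -- step 3
  have e3 := (match_eq (w := Prod.snd) (w' := Prod.fst) i0 i1 l0 l1 cA cB (by
    intro a ha b hb e
    rw [List.mem_toFinset] at ha hb
    by_contra hlt
    exact key _ (mem0 ha) _ (mem1 hb) e (cr01 hM (hA a ha).1 (hA a ha).2 (hB b hb).1 (hB b hb).2.1
      (hB b hb).2.2 (not_le.1 hlt))) sy).2
  refine ⟨fun a => f (ch M (0, a.1, a.2, 0)), fun b => f (ch M (1, b.1, b.2.1, b.2.2)),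
    fun c => f (ch M (2, c.1, c.2, 0)), ⟨?_, ?_, ?_⟩, ⟨?_, ?_, ?_⟩, ?_, ?_, ?_⟩
  · intro a ha; exact l0 a (List.mem_toFinset.2 ha)
  · intro a ha; exact l1 a (List.mem_toFinset.2 ha)
  · intro a ha; exact l2 a (List.mem_toFinset.2 ha)
  · intro a ha a' ha' e; exact i0 a (List.mem_toFinset.2 ha) a' (List.mem_toFinset.2 ha') e
  · intro a ha a' ha' e; exact i1 a (List.mem_toFinset.2 ha) a' (List.mem_toFinset.2 ha') e
  · intro a ha a' ha' e; exact i2 a (List.mem_toFinset.2 ha) a' (List.mem_toFinset.2 ha') e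
  · intro a ha c hc e
    obtain ⟨x, h1, h2⟩ := x2 _ (lt _ (mem0 ha))
    exact (h2 a ha rfl).trans (h1 c hc e.symm).symm
  · intro a ha b hb e
    exact e3 a (List.mem_toFinset.2 ha) b (List.mem_toFinset.2 hb) e
  · intro b hb c hc e
    obtain ⟨x, h1, h2⟩ := z1 _ (lt _ (mem1 hb))
    exact (h1 b hb rfl).trans (h2 c hc e.symm).symm

end

end Pool.Agent.R552.Seg
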