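import Pool.Agent.R552.Seg.Comp
import Pool.Agent.H648R3.WC.Nae
import Pool.Agent.H648R3.WC.Next

/-!
# The reduction from monotone not-all-equal satisfiability
-/

namespace Pool.Agent.R552.Seg

open Pool.Agent.NPC.WC648 Pool.Agent.H648R3.WC

/-- Another description of the matchings. -/
structure Edg (A : List (ℕ × ℕ)) (B : List (ℕ × ℕ × ℕ)) (C : List (ℕ × ℕ))
    (δ : ℕ × ℕ → ℕ × ℕ × ℕ) : Prop where
  memB : ∀ a ∈ A, δ a ∈ B
  fst : ∀ a ∈ A, (δ a).1 = a.2
  memC : ∀ a ∈ A, (a.1, (δ a).2.1) ∈ C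
  inj : ∀ a ∈ A, ∀ a' ∈ A, δ a = δ a' → a = a'
  injx : ∀ a ∈ A, ∀ a' ∈ A, a.1 = a'.1 → (δ a).2.1 = (δ a').2.1 → a = a'

theorem match_iff {M n : ℕ} {A : List (ℕ × ℕ)} {B : List (ℕ × ℕ × ℕ)} {C : List (ℕ × ℕ)}
    (h : Sys M n A B C) : Match n A B C ↔ ∃ δ, Edg A B C δ := by
  classical
  have cA : A.toFinset.card = n := by rw [List.toFinset_card_of_nodup h.An, h.Al]
  have cB : B.toFinset.card = n := by rw [List.toFinset_card_of_nodup h.Bn, h.Bl]
  have cC : C.toFinset.card = n := by rw [List.toFinset_card_of_nodup h.Cn, h.Cl]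
  constructor
  · rintro ⟨fA, fB, fC, ⟨lA, lB, lC⟩, ⟨iA, iB, iC⟩, hAC, hAB, hBC⟩
    have sB := surj_of (S := B.toFinset) (f := fB) (n := n)
      (fun b hb b' hb' e => iB b (List.mem_toFinset.1 hb) b' (List.mem_toFinset.1 hb') e)
      (fun b hb => lB b (List.mem_toFinset.1 hb)) cB
    have sC := surj_of (S := C.toFinset) (f := fC) (n := n)
      (fun b hb b' hb' e => iC b (List.mem_toFinset.1 hb) b' (List.mem_toFinset.1 hb') e)
      (fun b hb => lC b (List.mem_toFinset.1 hb)) cC
    have ex : ∀ a ∈ A, ∃ b, b ∈ B ∧ fB b = fA a ∧ (a.1, b.2.1) ∈ C ∧ fC (a.1, b.2.1) = fA a := by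
      intro a ha
      obtain ⟨b, hb, e⟩ := sB (fA a) (lA a ha)
      obtain ⟨c, hc, e'⟩ := sC (fA a) (lA a ha)
      rw [List.mem_toFinset] at hb hc
      have h1 := hAC a ha c hc e'.symm
      have h2 := hBC b hb c hc (e.trans e'.symm)
      have h3 : c = (a.1, b.2.1) := Prod.ext h1.symm h2.symm
      rw [h3] at hc e'
      exact ⟨b, hb, e, hc, e'⟩
    choose! δ h1 h2 h3 h4 using ex
    refine ⟨δ, h1, ?_, h3, ?_, ?_⟩
    · intro a ha
      exact (hAB a ha _ (h1 a ha) (h2 a ha).symm).symm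
    · intro a ha a' ha' e
      apply iA a ha a' ha'
      rw [← h2 a ha, ← h2 a' ha', e]
    · intro a ha a' ha' e e'
      apply iA a ha a' ha'
      rw [← h4 a ha, ← h4 a' ha', e, e']
  · rintro ⟨δ, hδ⟩
    have imB : A.toFinset.image δ = B.toFinset := by
      apply Finset.eq_of_subset_of_card_le
      · intro k hk
        obtain ⟨s, hs, rfl⟩ := Finset.mem_image.1 hk
        exact List.mem_toFinset.2 (hδ.memB s (List.mem_toFinset.1 hs))
      · rw [Finset.card_image_of_injOn (fun s hs s' hs' e =>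
          hδ.inj s (List.mem_toFinset.1 hs) s' (List.mem_toFinset.1 hs') e), cA, cB]
    have imC : A.toFinset.image (fun a => (a.1, (δ a).2.1)) = C.toFinset := by
      apply Finset.eq_of_subset_of_card_le
      · intro k hk
        obtain ⟨s, hs, rfl⟩ := Finset.mem_image.1 hk
        exact List.mem_toFinset.2 (hδ.memC s (List.mem_toFinset.1 hs))
      · rw [Finset.card_image_of_injOn (fun s hs s' hs' e => by
          have e' : (s.1, (δ s).2.1) = (s'.1, (δ s').2.1) := e
          exact hδ.injx s (List.mem_toFinset.1 hs) s' (List.mem_toFinset.1 hs')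
            (Prod.mk.inj e').1 (Prod.mk.inj e').2), cA, cC]
    have eB : ∀ b ∈ B, ∃ a, a ∈ A ∧ δ a = b := by
      intro b hb
      rw [← List.mem_toFinset, ← imB] at hb
      obtain ⟨a, ha, e⟩ := Finset.mem_image.1 hb
      exact ⟨a, List.mem_toFinset.1 ha, e⟩
    have eC : ∀ c ∈ C, ∃ a, a ∈ A ∧ (a.1, (δ a).2.1) = c := by
      intro b hb
      rw [← List.mem_toFinset, ← imC] at hb
      obtain ⟨a, ha, e⟩ := Finset.mem_image.1 hb
      exact ⟨a, List.mem_toFinset.1 ha, e⟩
    choose! β b1 b2 using eB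
    choose! γ c1 c2 using eC
    have idx : ∀ a ∈ A, A.idxOf a < n := by
      intro a ha
      rw [← h.Al]
      exact List.idxOf_lt_length_of_mem ha
    have iinj : ∀ a ∈ A, ∀ a' ∈ A, A.idxOf a = A.idxOf a' → a = a' := by
      intro a ha a' ha' e
      exact (List.idxOf_inj ha).1 e
    refine ⟨fun a => A.idxOf a, fun b => A.idxOf (β b), fun c => A.idxOf (γ c),
      ⟨idx, fun b hb => idx _ (b1 b hb), fun c hc => idx _ (c1 c hc)⟩, ⟨iinj, ?_, ?_⟩, ?_, ?_, ?_⟩
    · intro b hb b' hb' e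
      have := iinj _ (b1 b hb) _ (b1 b' hb') e
      rw [← b2 b hb, ← b2 b' hb', this]
    · intro b hb b' hb' e
      have := iinj _ (c1 b hb) _ (c1 b' hb') e
      rw [← c2 b hb, ← c2 b' hb', this]
    · intro a ha c hc e
      have := iinj _ ha _ (c1 c hc) e
      rw [← c2 c hc, this]
    · intro a ha c hc e
      have := iinj _ ha _ (b1 c hc) e
      rw [this, ← hδ.fst _ (b1 c hc), b2 c hc]
    · intro b hb c hc e
      have := iinj _ (b1 b hb) _ (c1 c hc) e
      have h1 := b2 b hb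
      have h2 := c2 c hc
      rw [this] at h1
      rw [← h1]
      exact congrArg Prod.snd h2

/-! ### the system -/

/-- the class of an occurrence -/
def occ (φ : List (NV × NV × NV)) (o : ℕ) : ℕ × NV :=
  if o % 4 = 3 then (o + 1, (0, 0, false)) else
    (0, if o % 4 = 0 then (φ.getD (o / 4) ((0, 0, false), (0, 0, false), (0, 0, false))).1 else
      if o % 4 = 1 then (φ.getD (o / 4) ((0, 0, false), (0, 0, false), (0, 0, false))).2.1 else
      (φ.getD (o / 4) ((0, 0, false), (0, 0, false), (0, 0, false))).2.2)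

/-- the next occurrence of the variable -/
def nx (φ : List (NV × NV × NV)) (o : ℕ) : ℕ := nxtf (4 * φ.length) (occ φ) o

/-- edges of the first kind -/
def eA (φ : List (NV × NV × NV)) : List (ℕ × ℕ) :=
  (List.range (4 * φ.length)).flatMap fun o =>
    [(2 * o, 4 * o), (2 * nx φ o, 4 * o + 1), (2 * o, 4 * (o / 4) + 2),
      (2 * o + 1, 4 * o), (2 * o + 1, 4 * o + 1), (2 * o + 1, 4 * (o / 4) + 3)]

/-- edges of the second kind -/
def eB (φ : List (NV × NV × NV)) : List (ℕ × ℕ × ℕ) :=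
  (List.range (4 * φ.length)).flatMap fun o =>
    [(4 * o, 0, 0), (4 * o, 1, 0), (4 * o + 1, 2, 0), (4 * o + 1, 1, 0),
      (4 * (o / 4) + 2, 2 * (o % 4 / 2), o % 2), (4 * (o / 4) + 3, 2 * (o % 4 / 2), o % 2)]

/-- edges of the third kind -/
def eC (φ : List (NV × NV × NV)) : List (ℕ × ℕ) :=
  (List.range (4 * φ.length)).flatMap fun o =>
    [(2 * o, 0), (2 * o, 1), (2 * o, 2), (2 * o + 1, 0), (2 * o + 1, 1), (2 * o + 1, 2)]

/-- the chord set of a formula -/
def red (φ : List (NV × NV × NV)) : List (ℕ × ℕ) × ℕ :=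
  (chords (4 * (4 * φ.length) + 4) (eA φ) (eB φ) (eC φ), 6 * (4 * φ.length))

theorem mem_eA {φ : List (NV × NV × NV)} {a : ℕ × ℕ} : a ∈ eA φ ↔ ∃ o < 4 * φ.length,
    a = (2 * o, 4 * o) ∨ a = (2 * nx φ o, 4 * o + 1) ∨ a = (2 * o, 4 * (o / 4) + 2) ∨
    a = (2 * o + 1, 4 * o) ∨ a = (2 * o + 1, 4 * o + 1) ∨ a = (2 * o + 1, 4 * (o / 4) + 3) := by
  unfold eA
  simp only [List.mem_flatMap, List.mem_range, List.mem_cons, List.not_mem_nil, or_false]

theorem mem_eB {φ : List (NV × NV × NV)} {b : ℕ × ℕ × ℕ} : b ∈ eB φ ↔ ∃ o < 4 * φ.length,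
    b = (4 * o, 0, 0) ∨ b = (4 * o, 1, 0) ∨ b = (4 * o + 1, 2, 0) ∨ b = (4 * o + 1, 1, 0) ∨
    b = (4 * (o / 4) + 2, 2 * (o % 4 / 2), o % 2) ∨
    b = (4 * (o / 4) + 3, 2 * (o % 4 / 2), o % 2) := by
  unfold eB
  simp only [List.mem_flatMap, List.mem_range, List.mem_cons, List.not_mem_nil, or_false]

theorem mem_eC {φ : List (NV × NV × NV)} {a : ℕ × ℕ} : a ∈ eC φ ↔ ∃ o < 4 * φ.length,
    a = (2 * o, 0) ∨ a = (2 * o, 1) ∨ a = (2 * o, 2) ∨
    a = (2 * o + 1, 0) ∨ a = (2 * o + 1, 1) ∨ a = (2 * o + 1, 2) := by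
  unfold eC
  simp only [List.mem_flatMap, List.mem_range, List.mem_cons, List.not_mem_nil, or_false]

theorem sum_fm {β : Type} (l : List ℕ) (f : ℕ → List β) (g : β → ℕ) :
    ((l.flatMap f).map g).sum = (l.map (fun o => ((f o).map g).sum)).sum := by
  induction l with
  | nil => rfl
  | cons a l ih => simp only [List.flatMap_cons, List.map_append, List.sum_append, ih,
      List.map_cons, List.sum_cons]

theorem sum_range_eq (N : ℕ) (g : ℕ → ℕ) : ((List.range N).map g).sum = ∑ o ∈ Finset.range N, g o := by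
  rw [Finset.sum_range, ← List.sum_ofFn]
  congr 1
  apply List.ext_getElem (by simp)
  intro i h1 h2
  simp

theorem sum_nx (φ : List (NV × NV × NV)) : ∑ o ∈ Finset.range (4 * φ.length), nx φ o =
    ∑ o ∈ Finset.range (4 * φ.length), o := by
  rw [Finset.sum_range, Finset.sum_range]
  exact Equiv.sum_comp (perm (4 * φ.length) (occ φ)) (fun o => (o : ℕ))

theorem sum_half (m : ℕ) : ∑ o ∈ Finset.range (4 * m), 4 * (o % 4 / 2) = 2 * (4 * m) := by
  induction m with
  | zero => rfl
  | succ m ih =>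
    rw [show 4 * (m + 1) = 4 * m + 1 + 1 + 1 + 1 from by ring, Finset.sum_range_succ,
      Finset.sum_range_succ, Finset.sum_range_succ, Finset.sum_range_succ, ih]
    omega

theorem nodup_fm {β : Type} (N : ℕ) (f : ℕ → List β) (h1 : ∀ o < N, (f o).Nodup)
    (h2 : ∀ o < N, ∀ o' < N, o < o' → ∀ x ∈ f o, x ∉ f o') : ((List.range N).flatMap f).Nodup := by
  rw [List.nodup_flatMap]
  refine ⟨fun o ho => h1 o (List.mem_range.1 ho), ?_⟩
  have hp : List.Pairwise (fun a b => a < b) (List.range N) := List.pairwise_lt_range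
  refine hp.imp_of_mem ?_
  intro a b ha hb hab
  simp only [Function.onFun]
  intro x hx hx'
  exact h2 a (List.mem_range.1 ha) b (List.mem_range.1 hb) hab x hx hx'

theorem length_fm {β : Type} (N : ℕ) (f : ℕ → List β) (h : ∀ o, (f o).length = 6) :
    ((List.range N).flatMap f).length = 6 * N := by
  rw [List.length_flatMap]
  simp only [h, List.map_const', List.length_range, List.sum_replicate, smul_eq_mul]
  ring

theorem sys (φ : List (NV × NV × NV)) :
    Sys (4 * (4 * φ.length) + 4) (6 * (4 * φ.length)) (eA φ) (eB φ) (eC φ) := by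
  have hnx : ∀ o < 4 * φ.length, nx φ o < 4 * φ.length := fun o ho => nxtf_lt ho
  have hnxi : ∀ o < 4 * φ.length, ∀ o' < 4 * φ.length, nx φ o = nx φ o' → o = o' :=
    fun o ho o' ho' e => nxtf_inj ho ho' e
  refine ⟨by omega, ?_, ?_, ?_, ?_, ?_, ?_, ?_, ?_, ?_, ?_, ?_, ?_⟩
  · apply nodup_fm
    · intro o ho
      simp only [List.nodup_cons, List.mem_cons, List.not_mem_nil, or_false, not_or,
        List.nodup_nil, and_true, not_false_eq_true, Prod.mk.injEq]
      omega
    · intro o ho o' ho' hlt x hx hx'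
      simp only [List.mem_cons, List.not_mem_nil, or_false] at hx hx'
      obtain ⟨x1, x2⟩ := x
      simp only [Prod.mk.injEq] at hx hx'
      omega
  · apply nodup_fm
    · intro o ho
      simp only [List.nodup_cons, List.mem_cons, List.not_mem_nil, or_false, not_or,
        List.nodup_nil, and_true, not_false_eq_true, Prod.mk.injEq]
      omega
    · intro o ho o' ho' hlt x hx hx'
      simp only [List.mem_cons, List.not_mem_nil, or_false] at hx hx'
      obtain ⟨x1, x2, x3⟩ := x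
      simp only [Prod.mk.injEq] at hx hx'
      omega
  · apply nodup_fm
    · intro o ho
      simp only [List.nodup_cons, List.mem_cons, List.not_mem_nil, or_false, not_or,
        List.nodup_nil, and_true, not_false_eq_true, Prod.mk.injEq]
      omega
    · intro o ho o' ho' hlt x hx hx'
      simp only [List.mem_cons, List.not_mem_nil, or_false] at hx hx'
      obtain ⟨x1, x2⟩ := x
      simp only [Prod.mk.injEq] at hx hx'
      omega
  · exact length_fm _ _ (fun o => rfl)
  · exact length_fm _ _ (fun o => rfl)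
  · exact length_fm _ _ (fun o => rfl)
  · intro a ha
    rw [mem_eA] at ha
    obtain ⟨o, ho, ha⟩ := ha
    have := hnx o ho
    rcases ha with rfl | rfl | rfl | rfl | rfl | rfl <;> simp only <;> omega
  · intro a ha
    rw [mem_eB] at ha
    obtain ⟨o, ho, ha⟩ := ha
    rcases ha with rfl | rfl | rfl | rfl | rfl | rfl <;> simp only <;> omega
  · intro a ha
    rw [mem_eC] at ha
    obtain ⟨o, ho, ha⟩ := ha
    rcases ha with rfl | rfl | rfl | rfl | rfl | rfl <;> simp only <;> omega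
  · unfold eA eC
    rw [sum_fm, sum_fm, sum_range_eq, sum_range_eq]
    simp only [List.map_cons, List.map_nil, List.sum_cons, List.sum_nil]
    have h1 : ∀ o ∈ Finset.range (4 * φ.length), 2 * o + (2 * nx φ o + (2 * o + (2 * o + 1 +
        (2 * o + 1 + (2 * o + 1 + 0))))) = 2 * nx φ o + (10 * o + 3) := fun o _ => by ring
    have h2 : ∀ o ∈ Finset.range (4 * φ.length), 2 * o + (2 * o + (2 * o + (2 * o + 1 +
        (2 * o + 1 + (2 * o + 1 + 0))))) = 2 * o + (10 * o + 3) := fun o _ => by ring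
    rw [Finset.sum_congr rfl h1, Finset.sum_congr rfl h2]
    simp only [Finset.sum_add_distrib, ← Finset.mul_sum, sum_nx]
    rw [Finset.mul_sum]
  · unfold eA eB
    rw [sum_fm, sum_fm, sum_range_eq, sum_range_eq]
    simp only [List.map_cons, List.map_nil, List.sum_cons, List.sum_nil]
    apply Finset.sum_congr rfl
    intro o _
    ring
  · unfold eB eC
    rw [sum_fm, sum_fm, sum_range_eq, sum_range_eq]
    simp only [List.map_cons, List.map_nil, List.sum_cons, List.sum_nil]
    have h1 : ∀ o ∈ Finset.range (4 * φ.length), 0 + (1 + (2 + (1 + (2 * (o % 4 / 2) +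
        (2 * (o % 4 / 2) + 0))))) = 4 * (o % 4 / 2) + 4 := fun o _ => by ring
    rw [Finset.sum_congr rfl h1, Finset.sum_add_distrib, sum_half]
    simp only [Finset.sum_const, Finset.card_range, smul_eq_mul]
    ring

end Pool.Agent.R552.Seg
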